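import Pool.Agent.Lib.MP_732f67_ag.T.DerC
import Pool.Agent.Lib.MP_732f67_ag.KM.AtSys

/-!
# Project KM, transfer: the polarisation and the canonical form at the reductions
-/

set_option autoImplicit false

namespace Pool.Agent.Lib.MP_732f67_ag.T

open Pool.Agent.KM
open Pool.Agent.Lib.MP_732f67_ag.KC (ev2 A2 ep jac bet AJ ceα kap phi)
open Pool.Agent.Lib.MP_732f67_ag.V (AR)

variable {L : Type} [Field L] [Algebra ℂ L] {n : ℕ} {t : Fin n → L} {y : L}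

/-- integer powers at the reductions -/
theorem r_zpow (R : Red L t y) {x : L} (h0 : x ≠ 0) (hx : x ∈ R.Λ) (hi : x⁻¹ ∈ R.Λ) (k : ℤ) :
    x ^ k ∈ R.Λ ∧ R.r (x ^ k) = R.r x ^ k := by
  cases k with
  | ofNat k =>
    rw [Int.ofNat_eq_natCast, zpow_natCast, zpow_natCast]
    exact ⟨R.Λ.pow_mem hx k, R.r_pow hx k⟩
  | negSucc k =>
    rw [zpow_negSucc, zpow_negSucc, ← inv_pow, ← inv_pow, R.r_pow hi, R.r_inv h0 hx hi]
    exact ⟨R.Λ.pow_mem hi _, rfl⟩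

/-- products of integer powers at the reductions -/
theorem r_prod_zpow (R : Red L t y) {ι : Type*} (s : Finset ι) (x : ι → L) (h0 : ∀ i ∈ s, x i ≠ 0)
    (hx : ∀ i ∈ s, x i ∈ R.Λ) (hi : ∀ i ∈ s, (x i)⁻¹ ∈ R.Λ) (k : ι → ℤ) :
    ∏ i ∈ s, x i ^ k i ∈ R.Λ ∧ R.r (∏ i ∈ s, x i ^ k i) = ∏ i ∈ s, R.r (x i) ^ k i := by
  refine ⟨R.Λ.prod_mem fun i h => (r_zpow R (h0 i h) (hx i h) (hi i h) (k i)).1, ?_⟩
  rw [R.r_prod s _ fun i h => (r_zpow R (h0 i h) (hx i h) (hi i h) (k i)).1]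
  exact Finset.prod_congr rfl fun i h => (r_zpow R (h0 i h) (hx i h) (hi i h) (k i)).2

/-- products of powers at the reductions -/
theorem r_prod_pow (R : Red L t y) {ι : Type*} (s : Finset ι) (x : ι → L)
    (hx : ∀ i ∈ s, x i ∈ R.Λ) (k : ι → ℕ) :
    ∏ i ∈ s, x i ^ k i ∈ R.Λ ∧ R.r (∏ i ∈ s, x i ^ k i) = ∏ i ∈ s, R.r (x i) ^ k i := by
  refine ⟨R.Λ.prod_mem fun i h => R.Λ.pow_mem (hx i h) _, ?_⟩
  rw [R.r_prod s _ fun i h => R.Λ.pow_mem (hx i h) _]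
  exact Finset.prod_congr rfl fun i h => R.r_pow (hx i h) _

variable {I : Type} [Fintype I] {X : AtD L n I}

/-- everything in `Λ` -/
theorem ev_base (hX : X.Ok) : Ev X.t X.y0 fun R =>
    (∀ j, X.z j ∈ R.Λ ∧ (X.z j)⁻¹ ∈ R.Λ ∧ R.r (X.z j) ≠ 0) ∧
    (∀ a, X.jac a ∈ R.Λ ∧ (X.jac a)⁻¹ ∈ R.Λ ∧ R.r (X.jac a) ≠ 0) ∧
    (∀ a j, X.ε a j ∈ R.Λ ∧ (X.ε a j)⁻¹ ∈ R.Λ ∧ R.r (X.ε a j) ≠ 0) ∧
    (∀ a i, X.d a i ∈ R.Λ ∧ (X.d a i)⁻¹ ∈ R.Λ ∧ R.r (X.d a i) ≠ 0) ∧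
    (X.ω ∈ R.Λ ∧ X.ω⁻¹ ∈ R.Λ ∧ R.r X.ω ≠ 0) :=
  (Ev.all fun j => ev_ne (hX.z_ne j)).and <| (Ev.all fun a => ev_ne (jacC_ne hX a)).and <|
    (Ev.all fun a => Ev.all fun j => ev_ne (ε_ne hX a j)).and <|
    (Ev.all fun a => Ev.all fun i => ev_ne (hX.d_ne a i)).and (ev_ne hX.ω_ne)

/-- the polarisation at the reductions -/
theorem ev_pol (hX : X.Ok) : Ev X.t X.y0 fun R => ∀ D' : Fin n → Derivation ℤ R.F R.F, Dual R D' →
    ∃ un : Fin X.k → R.F, KC.Pol (X.a * X.q) (fun j => R.r (X.z j)) X.σ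
      (fun a i => R.r (X.x a i)) X.co (jac D' fun a i => R.r (X.x a i)) un X.b := by
  have h1 : Ev X.t X.y0 fun R => ∀ a, _root_.KM.UnitOf (AJ (fun j => R.r (X.z j)) X.σ {a})
      (R.r (X.z (X.σ a) * X.jac a ^ (X.a * X.q) * ∏ j, X.ε a j ^ X.b j)) :=
    Ev.all fun a => (ev_unit hX.z_ne X.σ {a} (by
      rw [← chA_eq_AR]
      exact hX.pol a)).mono fun R hR => hR.2.2.2.2.2
  have h2 : Ev X.t X.y0 fun R => ∀ a a', _root_.KM.UnitOf (AJ (fun j => R.r (X.z j)) X.σ {a, a'})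
      (R.r (X.jac a / X.jac a')) :=
    Ev.all fun a => Ev.all fun a' => (ev_unit hX.z_ne X.σ {a, a'} (by
      rw [Finset.pair_comm]
      exact jac_trans hX a' a)).mono fun R hR => hR.2.2.2.2.2
  refine (h1.and (h2.and ((ev_base hX).and ((ev_jac hX).and (ev_ep X))))).mono fun R hR D' hD' => ?_
  obtain ⟨h1, h2, ⟨hz, hj, hε, hd, hω⟩, hjac, hep⟩ := hR
  refine ⟨fun a => R.r (X.z (X.σ a) * X.jac a ^ (X.a * X.q) * ∏ j, X.ε a j ^ X.b j), ?_, h1, ?_, ?_,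
    ?_⟩
  · exact Nat.one_le_iff_ne_zero.2 (Nat.mul_ne_zero hX.a_pos.ne' hX.q_pos.ne')
  · intro a
    rw [(hjac D' hD' a).2]
    exact (hj a).2.2
  · intro a a'
    refine ⟨_, h2 a a', ?_⟩
    rw [(hjac D' hD' a).2, (hjac D' hD' a').2, div_eq_mul_inv, R.r_mul (hj a).1 (hj a').2.1,
      R.r_inv (jacC_ne hX a') (hj a').1 (hj a').2.1, mul_assoc, inv_mul_cancel₀ (hj a').2.2,
      mul_one]
  · intro a
    have h3 := r_prod_zpow R Finset.univ (fun j => X.ε a j) (fun j _ => ε_ne hX a j)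
      (fun j _ => (hε a j).1) (fun j _ => (hε a j).2.1) X.b
    rw [R.r_mul (R.Λ.mul_mem (hz _).1 (R.Λ.pow_mem (hj a).1 _)) h3.1,
      R.r_mul (hz _).1 (R.Λ.pow_mem (hj a).1 _), R.r_pow (hj a).1, h3.2, (hjac D' hD' a).2]
    congr 1
    exact Finset.prod_congr rfl fun j _ => by rw [hep, ep_eq]

/-- the canonical form at the reductions -/
theorem ev_can (hX : X.Ok) : Ev X.t X.y0 fun R => ∀ D' : Fin n → Derivation ℤ R.F R.F, Dual R D' →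
    ∃ uw : Fin X.k → R.F, KC.Can (X.a * X.q) D' (fun j => R.r (X.z j)) X.σ
      (fun a i => R.r (X.x a i)) X.co uw (R.r (X.ω ^ X.a)) (fun j => X.a * X.e j)
      (fun a i => R.r (X.d a i)) (fun i => X.a * X.c i) := by
  have h1 : Ev X.t X.y0 fun R => ∀ a, _root_.KM.UnitOf (AJ (fun j => R.r (X.z j)) X.σ {a})
      (R.r (X.ω * (X.jac a ^ X.q)⁻¹ * (∏ i, X.d a i ^ X.c i) * ∏ j, X.ε a j ^ (-X.e j))) :=
    Ev.all fun a => (ev_unit hX.z_ne X.σ {a} (by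
      rw [← chA_eq_AR]
      exact hX.can a)).mono fun R hR => hR.2.2.2.2.2
  have h2 : Ev X.t X.y0 fun R => ∀ a a' i,
      _root_.KM.UnitOf (AJ (fun j => R.r (X.z j)) X.σ {a, a'}) (R.r (X.d a i / X.d a' i)) :=
    Ev.all fun a => Ev.all fun a' => Ev.all fun i => (ev_unit hX.z_ne X.σ {a, a'} (by
      refine ⟨div_ne_zero (hX.d_ne a i) (hX.d_ne a' i), ?_, ?_⟩
      · rw [← sup_eq_AR]
        exact hX.d_trans a a' i
      · rw [inv_div, ← sup_eq_AR, sup_comm]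
        exact hX.d_trans a' a i)).mono fun R hR => hR.2.2.2.2.2
  refine (h1.and (h2.and ((ev_base hX).and ((ev_jac hX).and (ev_ep X))))).mono fun R hR D' hD' => ?_
  obtain ⟨h1, h2, ⟨hz, hj, hε, hd, hω⟩, hjac, hep⟩ := hR
  refine ⟨fun a => R.r (X.ω * (X.jac a ^ X.q)⁻¹ * (∏ i, X.d a i ^ X.c i) *
    ∏ j, X.ε a j ^ (-X.e j)) ^ X.a, fun a => (h1 a).pow _, ?_, fun a i => (hd a i).2.2, ?_, ?_⟩
  · rw [R.r_pow hω.1]
    exact pow_ne_zero _ hω.2.2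
  · intro a a' i
    refine ⟨_, h2 a a' i, ?_⟩
    rw [div_eq_mul_inv, R.r_mul (hd a i).1 (hd a' i).2.1,
      R.r_inv (hX.d_ne a' i) (hd a' i).1 (hd a' i).2.1, mul_assoc, inv_mul_cancel₀ (hd a' i).2.2,
      mul_one]
  · intro a
    have h3 := r_prod_zpow R Finset.univ (fun j => X.ε a j) (fun j _ => ε_ne hX a j)
      (fun j _ => (hε a j).1) (fun j _ => (hε a j).2.1) fun j => -X.e j
    have h4 := r_prod_pow R Finset.univ (fun i => X.d a i) (fun i _ => (hd a i).1) X.c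
    have h5 : (X.jac a ^ X.q)⁻¹ ∈ R.Λ := by
      rw [← inv_pow]
      exact R.Λ.pow_mem (hj a).2.1 _
    have h6 : R.r (X.jac a ^ X.q)⁻¹ = (R.r (X.jac a) ^ X.q)⁻¹ := by
      rw [← inv_pow, R.r_pow (hj a).2.1, R.r_inv (jacC_ne hX a) (hj a).1 (hj a).2.1, inv_pow]
    rw [R.r_mul (R.Λ.mul_mem (R.Λ.mul_mem hω.1 h5) h4.1) h3.1,
      R.r_mul (R.Λ.mul_mem hω.1 h5) h4.1, R.r_mul hω.1 h5, h3.2, h4.2, h6, R.r_pow hω.1,
      (hjac D' hD' a).2]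
    have h7 : ∀ j, ep (fun a i => R.r (X.x a i)) X.co a j = R.r (X.ε a j) := fun j => by
      rw [hep, ep_eq]
    have h8 : ∏ j, ep (fun a i => R.r (X.x a i)) X.co a j ^ ((X.a : ℤ) * X.e j) =
        (∏ j, R.r (X.ε a j) ^ X.e j) ^ X.a := by
      rw [← Finset.prod_pow]
      refine Finset.prod_congr rfl fun j _ => ?_
      rw [h7, mul_comm, zpow_mul, zpow_natCast]
    have h9 : ∏ j, R.r (X.ε a j) ^ (-X.e j) = (∏ j, R.r (X.ε a j) ^ X.e j)⁻¹ := by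
      rw [← Finset.prod_inv_distrib]
      exact Finset.prod_congr rfl fun j _ => zpow_neg _ _
    have h10 : ∏ i, R.r (X.d a i) ^ (X.a * X.c i) = (∏ i, R.r (X.d a i) ^ X.c i) ^ X.a := by
      rw [← Finset.prod_pow]
      exact Finset.prod_congr rfl fun i _ => by rw [← pow_mul, mul_comm]
    have h11 : ∏ j, R.r (X.ε a j) ^ X.e j ≠ 0 :=
      Finset.prod_ne_zero_iff.2 fun j _ => zpow_ne_zero _ (hε a j).2.2
    have h12 : R.r (X.jac a) ^ X.q ≠ 0 := pow_ne_zero _ (hj a).2.2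
    rw [h8, h9, h10]
    have h13 : R.r (X.jac a) ^ (X.a * X.q) = (R.r (X.jac a) ^ X.q) ^ X.a := by
      rw [← pow_mul, mul_comm]
    rw [h13, ← mul_pow, ← mul_pow, ← mul_pow]
    congr 1
    field_simp

theorem b_gt' (hX : X.Ok) (j : Fin X.s) : -((X.a * X.q : ℕ) : ℤ) < X.b j := by
  obtain ⟨r, hr0, hr1, -⟩ := hX.b_gt j
  have h : 0 ≤ r * ((X.a : ℤ) * X.q) := mul_nonneg hr0 (by positivity)
  push_cast
  nlinarith

end Pool.Agent.Lib.MP_732f67_ag.T
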