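import Pool.Agent.Lib.MP_732f67_ag.G.RedEv

/-!
# Project KM, transfer: algebraic independence
-/

set_option autoImplicit false

namespace Pool.Agent.Lib.MP_732f67_ag.T

open Pool.Agent.KM

variable {L : Type} [Field L] [Algebra ℂ L] {n : ℕ} {t : Fin n → L} {y : L}

theorem basis_equiv (ht : IsTranscendenceBasis ℂ t) {u : Set L}
    (hu : IsTranscendenceBasis ℂ ((↑) : u → L)) : Nonempty (Fin n ≃ u) := by
  have h1 := ht.cardinalMk_eq hu
  exact Cardinal.eq.1 h1

/-- algebraically independent elements are part of a transcendence basis -/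
theorem exists_basis_ext (ht : IsTranscendenceBasis ℂ t) {m : ℕ} {v : Fin m → L}
    (hv : AlgebraicIndependent ℂ v) : ∃ x : Fin n → L, IsTranscendenceBasis ℂ x ∧
      ∃ e : Fin m → Fin n, Function.Injective e ∧ ∀ i, v i = x (e i) := by
  obtain ⟨u, hu, hb⟩ := exists_isTranscendenceBasis_superset (R := ℂ) hv.to_subtype_range
  obtain ⟨f⟩ := basis_equiv ht hb
  refine ⟨fun i => (f i : L), hb.comp_equiv f, fun i => f.symm ⟨v i, hu ⟨i, rfl⟩⟩, ?_, ?_⟩
  · intro i j h
    have h1 := f.symm.injective h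
    exact hv.injective (congrArg Subtype.val h1)
  · intro i
    show v i = (f (f.symm ⟨v i, _⟩) : L)
    rw [Equiv.apply_symm_apply]

/-- algebraic independence is preserved -/
theorem ev_ind (ht : IsTranscendenceBasis ℂ t) {m : ℕ} {v : Fin m → L}
    (hv : AlgebraicIndependent ℂ v) :
    Ev t y fun R => AlgebraicIndependent (ZMod R.p) fun i => R.r (v i) := by
  obtain ⟨x, hx, e, he, hve⟩ := exists_basis_ext ht hv
  refine (ev_trans ht hx).mono fun R hR => ?_
  have h1 := hR.2.1.comp e he
  have h2 : (fun i => R.r (v i)) = (fun i => R.r (x i)) ∘ e := by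
    funext i
    rw [hve i]
    rfl
  rw [h2]
  exact h1

/-- a transcendental element stays transcendental -/
theorem ev_transc (ht : IsTranscendenceBasis ℂ t) {v : L} (hv : Transcendental ℂ v) :
    Ev t y fun R => Transcendental (ZMod R.p) (R.r v) := by
  have h1 : AlgebraicIndependent ℂ (fun _ : Fin 1 => v) :=
    algebraicIndependent_unique_type_iff.2 hv
  refine (ev_ind ht h1).mono fun R hR => ?_
  exact algebraicIndependent_unique_type_iff.1 hR

/-- a transcendence basis inside a generating set -/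
theorem exists_basis_sub (ht : IsTranscendenceBasis ℂ t) {G : Set L}
    (h : ∀ x : L, IsAlgebraic (Algebra.adjoin ℂ G) x) :
    ∃ x : Fin n → L, IsTranscendenceBasis ℂ x ∧ ∀ i, x i ∈ G := by
  have : Algebra.IsAlgebraic (Algebra.adjoin ℂ G) L := ⟨h⟩
  obtain ⟨u, hu, hb⟩ := exists_isTranscendenceBasis_subset (R := ℂ) G
  obtain ⟨f⟩ := basis_equiv ht hb
  exact ⟨fun i => (f i : L), hb.comp_equiv f, fun i => hu (f i).2⟩

/-- `F` is algebraic over the reductions of elements over which `L` is algebraic -/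
theorem ev_big (ht : IsTranscendenceBasis ℂ t) {G : Set L}
    (h : ∀ x : L, IsAlgebraic (Algebra.adjoin ℂ G) x) :
    Ev t y fun R => ∀ x : R.F, IsAlgebraic (Algebra.adjoin (ZMod R.p) (R.r '' G)) x := by
  obtain ⟨x, hx, hxG⟩ := exists_basis_sub ht h
  refine (ev_trans ht hx).mono fun R hR z => ?_
  refine (hR.2.isAlgebraic.isAlgebraic z).adjoin_of_forall_isAlgebraic ?_
  rintro _ ⟨⟨j, rfl⟩, hj⟩
  exact absurd ⟨x j, hxG j, rfl⟩ hj

end Pool.Agent.Lib.MP_732f67_ag.T
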