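import Pool.Agent.Lib.MP_732f67_ag.T.Adj

/-!
# Project KM, transfer: the p-basis `t` and the derivations
-/

set_option autoImplicit false

namespace Pool.Agent.Lib.MP_732f67_ag.T

open Pool.Agent.KM
open Pool.Agent.Lib.MP_732f67_ag.KC (ev2 A2 ep jac bet AJ)

variable {L : Type} [Field L] [Algebra ℂ L] {n : ℕ} {t : Fin n → L} {y : L}

/-- a polynomial over `ℤ` which vanishes at algebraically independent elements is divisible by
`p` -/
theorem dvd_of_indep {p : ℕ} [Fact p.Prime] {F : Type*} [Field F] [Algebra (ZMod p) F]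
    {x : Fin n → F} (hx : AlgebraicIndependent (ZMod p) x) (P : MvPolynomial (Fin n) ℤ)
    (h0 : MvPolynomial.aeval x P = 0) : ∃ Q, P = (p : MvPolynomial (Fin n) ℤ) * Q := by
  have h1 : MvPolynomial.aeval x (MvPolynomial.map (Int.castRingHom (ZMod p)) P) = 0 := by
    rw [← h0]
    have hext : (MvPolynomial.aeval x : MvPolynomial (Fin n) (ZMod p) →ₐ[ZMod p] F).toRingHom.comp
        (MvPolynomial.map (Int.castRingHom (ZMod p))) =
        (MvPolynomial.aeval x : MvPolynomial (Fin n) ℤ →ₐ[ℤ] F).toRingHom := by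
      apply MvPolynomial.ringHom_ext
      · intro c
        simp
      · intro i
        simp
    exact RingHom.congr_fun hext P
  have h2 := hx (h1.trans (map_zero _).symm)
  have h3 : MvPolynomial.C ((p : ℕ) : ℤ) ∣ P := by
    rw [MvPolynomial.C_dvd_iff_zmod]
    exact h2
  obtain ⟨Q, hQ⟩ := h3
  exact ⟨Q, by rw [hQ]; simp⟩

/-- the derivative of the polynomial of the primitive element -/
theorem prim_der {f : Polynomial (MvPolynomial (Fin n) ℂ)} (ht : AlgebraicIndependent ℂ t)
    (h0 : ev t y f = 0) {U V : Polynomial (MvPolynomial (Fin n) ℂ)} {D : MvPolynomial (Fin n) ℂ}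
    (hD : D ≠ 0) (hUV : U * f + V * f.derivative = Polynomial.C D) : ev t y f.derivative ≠ 0 := by
  intro h1
  have h2 : ev t y (U * f + V * f.derivative) = 0 := by
    unfold ev at h0 h1 ⊢
    rw [Polynomial.eval₂_add, Polynomial.eval₂_mul, Polynomial.eval₂_mul, h0, h1, mul_zero,
      mul_zero, add_zero]
  rw [hUV] at h2
  unfold ev at h2
  rw [Polynomial.eval₂_C] at h2
  exact hD (ht (h2.trans (map_zero _).symm))

/-- the reduction of the transcendence basis is a p-basis -/
theorem ev_pb (h : Prim t y) : Ev t y fun R => KC.IsPB R.p fun i => R.r (t i) := by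
  obtain ⟨f, hfm, hfd, hf0, -, U, V, D, hD, hUV⟩ := h.int
  have hder : ev t y f.derivative ≠ 0 := prim_der h.basis.1 hf0 hD hUV
  refine ((lift_poly f).and (ev_ne hder)).mono fun R hR => ?_
  obtain ⟨⟨fZ, hmon, hev⟩, hdm, hdi, hdn⟩ := hR
  obtain ⟨⟨-, hr0⟩, -, hr1⟩ := hev t y R.t_mem R.y_mem
  have hπ : ∀ P, ev2 (fun i => R.r (t i)) (R.r y) P = R.π (ev2 (fun i => R.r2 (t i)) (R.r2 y) P) :=
    fun P => (map_ev2 R.π _ _ P).symm
  have hroot : ev2 (fun i => R.r (t i)) (R.r y) fZ = 0 := by
    have h0 : ev t y f = 0 := hf0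
    rw [hπ, ← hr0, h0, R.r2_zero, map_zero]
  have hd : ev2 (fun i => R.r (t i)) (R.r y) fZ.derivative = R.r (ev t y f.derivative) := by
    rw [hπ, ← hr1]
    rfl
  have hd0 : ev2 (fun i => R.r (t i)) (R.r y) fZ.derivative ≠ 0 := by
    rw [hd]
    exact hdn
  have htr : AlgebraicIndependent (ZMod R.p) fun i => R.r (t i) := by
    have h1 := R.trans.1
    have h2 : (fun i => R.π (R.ρ2 ⟨t i, R.t_mem i⟩)) = fun i => R.r (t i) := by
      funext i
      exact (R.r_of (R.t_mem i)).symm
    rwa [h2] at h1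
  have hfg : IntermediateField.adjoin (ZMod R.p)
      (insert (R.r y) (Set.range fun i => R.r (t i))) = ⊤ := by
    have h1 := R.fg
    have h2 : (fun i => R.π (R.ρ2 ⟨t i, R.t_mem i⟩)) = fun i => R.r (t i) := by
      funext i
      exact (R.r_of (R.t_mem i)).symm
    have h3 : R.π (R.ρ2 ⟨y, R.y_mem⟩) = R.r y := (R.r_of R.y_mem).symm
    rwa [h2, h3] at h1
  have hmv : ∀ a : MvPolynomial (Fin n) ℤ, MvPolynomial.aeval (fun i => R.r (t i)) a ∈
      Subring.closure (Set.range (fun i => R.r (t i)) ∪ {R.r y}) := by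
    intro a
    induction a using MvPolynomial.induction_on with
    | C c =>
      rw [MvPolynomial.algHom_C, eq_intCast]
      exact intCast_mem _ c
    | add a b ha hb =>
      rw [map_add]
      exact add_mem ha hb
    | mul_X a i ha =>
      rw [map_mul, MvPolynomial.aeval_X]
      exact mul_mem ha (Subring.subset_closure (Or.inl ⟨i, rfl⟩))
  have hy : R.r y ∈ Subring.closure (Set.range (fun i => R.r (t i)) ∪ {R.r y}) :=
    Subring.subset_closure (Or.inr rfl)
  have hmem : ∀ P, ev2 (fun i => R.r (t i)) (R.r y) P ∈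
      Subring.closure (Set.range (fun i => R.r (t i)) ∪ {R.r y}) := by
    intro P
    induction P using Polynomial.induction_on' with
    | add P Q hP hQ =>
      rw [KC.fs_add]
      exact add_mem hP hQ
    | monomial k a =>
      have e : ev2 (fun i => R.r (t i)) (R.r y) (Polynomial.monomial k a) =
          MvPolynomial.aeval (fun i => R.r (t i)) a * R.r y ^ k := by
        unfold ev2
        rw [Polynomial.eval₂_monomial]
        rfl
      rw [e]
      exact mul_mem (hmv a) (pow_mem hy k)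
  have hch : KC.EtCh R.p (Subring.closure (Set.range (fun i => R.r (t i)) ∪
      {R.r y, (ev2 (fun i => R.r (t i)) (R.r y) fZ.derivative)⁻¹})) (fun i => R.r (t i)) (R.r y)
      (ev2 (fun i => R.r (t i)) (R.r y) fZ.derivative)⁻¹ fZ := by
    refine ⟨(hmon hfm).1, hroot, hd0, Subring.subset_closure (Or.inr (Or.inr rfl)),
      inv_ne_zero hd0, ?_, rfl, dvd_of_indep htr, fun c => ?_⟩
    · rw [inv_inv]
      exact hmem _
    · obtain ⟨P, Q, hQ, hc⟩ := gen_quot hfg c
      exact ⟨_, hmem P, _, hmem Q, hQ, by rw [← hc, mul_div_cancel_right₀ _ hQ]⟩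
  exact hch.isPB

end Pool.Agent.Lib.MP_732f67_ag.T
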