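import Pool.Agent.Lib.MP_732f67_ag.T.VGeo
import Pool.Agent.Lib.MP_732f67_ag.T.PolCan
import Pool.Agent.Lib.MP_732f67_ag.T.PB
import Pool.Agent.Lib.MP_732f67_ag.KC.GeoFin

/-!
# Project KM, transfer: part C for the reductions of the atlas
-/

set_option autoImplicit false

namespace Pool.Agent.Lib.MP_732f67_ag.T

open Pool.Agent.KM
open Pool.Agent.Lib.MP_732f67_ag.KC (AJ EP eN bZ Hart)

variable {L : Type} [Field L] [Algebra ℂ L] {n : ℕ} {I : Type} [Fintype I] [DecidableEq I]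
  {X : AtD L n I}

omit [DecidableEq I] in
/-- there is a chart -/
theorem partC_nonempty (hX : X.Ok) (hN : 0 < X.N) : Nonempty (Fin X.k) := by
  by_contra hne
  rw [not_nonempty_iff] at hne
  obtain ⟨M, hM⟩ := hX.cov
  have h1 := hM ⟨0, hN⟩
  have h2 : Set.range (fun a : Fin X.k => X.z (X.σ a)) = ∅ := Set.range_eq_empty _
  rw [h2, Submodule.span_empty, Submodule.bot_mul, Submodule.mem_bot] at h1
  exact pow_ne_zero _ (hX.z_ne _) h1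

/-- **Part C at the reductions** -/
theorem partC (hX : X.Ok) (hN : 0 < X.N) : ∃ l₀ : ℕ, Ev X.t X.y0 fun R =>
    ∀ l, l₀ ≤ l → R.p = X.a * X.q * (l + 1) + 1 → n < R.p →
    ∀ (K : Subfield R.F) (Y : _root_.KM.Atl K (Fin X.k) I),
      (∀ a, Y.A a = AJ (fun j => R.r (X.z j)) X.σ {a}) →
      (∀ a i, Y.d a i = R.r (X.d a i)) →
      Hart (fun a i => R.r (X.x a i)) X.co Y → (∀ f ∈ Y.V 0, f ∈ K) →
      ∃ τ : R.F → R.F, _root_.KM.IsInv R.p τ ∧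
        (∀ T, ∀ y ∈ Y.V ((R.p : ℤ) • T + ((l + 1 : ℕ) : ℤ) • bZ fun i => X.a * X.c i), ∀ a, ∃ k : ℕ,
          τ y * Y.eq a T * EP (fun a i => R.r (X.x a i)) X.co a ^ k ∈ Y.A a) ∧
        ∀ u, ∀ c ∈ Y.V u, c ≠ 0 → ∀ N₁ : ℕ, ∃ M ≥ N₁,
          ∃ y ∈ Y.V (eN R.p M • (((l + 1 : ℕ) : ℤ) • bZ fun i => X.a * X.c i) - u),
            τ^[M] (c * y) = 1 := by
  have hk := partC_nonempty hX hN
  obtain ⟨l₁, h1⟩ := ev_van hX
  obtain ⟨l₂, h2⟩ := ev_gener hX hN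
  refine ⟨max l₁ l₂, ?_⟩
  refine ((((h1.and h2).and (ev_geo hX)).and (ev_pb hX.prim)).and
    ((ev_pol hX).and (ev_can hX))).mono fun R hR => ?_
  obtain ⟨⟨⟨⟨hvan, hgen⟩, f, hgeo⟩, hpb⟩, hpol, hcan⟩ := hR
  intro l hl hp hn K Y hA hd hH hK
  obtain ⟨D, Tr, hr, -⟩ := KC.exists_ref hpb
  have hD : Dual R D := hr.Dt
  obtain ⟨un, hP⟩ := hpol D hD
  obtain ⟨uw, hC⟩ := hcan D hD
  have hYd : (fun a i => R.r (X.d a i)) = Y.d := by
    funext a i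
    exact (hd a i).symm
  rw [hYd] at hC
  have hl1 : l₁ ≤ l + 1 := ((le_max_left _ _).trans hl).trans (Nat.le_succ l)
  have hl2 : l₂ ≤ l := (le_max_right _ _).trans hl
  exact hgeo.final hn hpb hr (tt := fun k => R.r2 (X.t k)) (fun _ => rfl) hp hP (b_gt' hX) hC hA
    hH hK (hvan (l + 1) hl1 D hD) (hgen l hl2)

end Pool.Agent.Lib.MP_732f67_ag.T
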