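import Pool.Agent.Lib.MP_732f67_ag.T.AtY
import Pool.Agent.Lib.MP_732f67_ag.T.PartC
import Pool.Agent.Lib.MP_732f67_ag.G.RedMod

/-!
# Project KM, transfer: the theorem at the reductions
-/

set_option autoImplicit false

namespace Pool.Agent.Lib.MP_732f67_ag.T

open Pool.Agent.KM
open Pool.Agent.Lib.MP_732f67_ag.KC (AJ ep EP eN bZ Hart)

variable {L : Type} [Field L] [Algebra ℂ L] {n : ℕ} {I : Type} [Fintype I] [DecidableEq I]
  {X : AtD L n I}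

omit [DecidableEq I] in
/-- the product of the local equations and the product over the set of the local equations -/
theorem EP_mul {R : Red L X.t X.y0} {Y : _root_.KM.Atl (KR R) (Fin X.k) I} {a : Fin X.k}
    (hE : ∀ x ∈ ER X R a, x ≠ 0 ∧ x ∈ Y.A a) :
    ∃ c ∈ Y.A a, (∏ x ∈ ER X R a, x) ^ X.s = EP (fun a i => R.r (X.x a i)) X.co a * c := by
  classical
  have hmem : ∀ j, ep (fun a i => R.r (X.x a i)) X.co a j ∈ ER X R a := fun j => by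
    unfold ER
    exact Finset.mem_image_of_mem _ (Finset.mem_univ j)
  refine ⟨∏ j : Fin X.s, ∏ x ∈ (ER X R a).erase (ep (fun a i => R.r (X.x a i)) X.co a j), x,
    (Y.A a).prod_mem fun j _ => (Y.A a).prod_mem fun x hx => (hE x (Finset.mem_of_mem_erase hx)).2,
    ?_⟩
  unfold EP
  rw [← Finset.prod_mul_distrib]
  have h1 : ∀ j : Fin X.s, ep (fun a i => R.r (X.x a i)) X.co a j *
      ∏ x ∈ (ER X R a).erase (ep (fun a i => R.r (X.x a i)) X.co a j), x = ∏ x ∈ ER X R a, x :=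
    fun j => Finset.mul_prod_erase _ (fun x => x) (hmem j)
  rw [Finset.prod_congr rfl fun j _ => h1 j, Finset.prod_const, Finset.card_univ, Fintype.card_fin]

omit [DecidableEq I] in
/-- poles along `EP` are poles along `ER` -/
theorem pole_of {R : Red L X.t X.y0} {Y : _root_.KM.Atl (KR R) (Fin X.k) I} {a : Fin X.k}
    (hE : ∀ x ∈ ER X R a, x ≠ 0 ∧ x ∈ Y.A a) {f : R.F}
    (hf : ∃ k : ℕ, f * EP (fun a i => R.r (X.x a i)) X.co a ^ k ∈ Y.A a) :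
    ∃ N : ℕ, f * (∏ x ∈ ER X R a, x) ^ N ∈ Y.A a := by
  obtain ⟨c, hc, he⟩ := EP_mul hE
  obtain ⟨k, hk⟩ := hf
  refine ⟨X.s * k, ?_⟩
  rw [pow_mul, he, mul_pow, ← mul_assoc]
  exact (Y.A a).mul_mem hk ((Y.A a).pow_mem hc k)

/-- sections may have poles along the boundary -/
theorem hart_of {R : Red L X.t X.y0} {Y : _root_.KM.Atl (KR R) (Fin X.k) I}
    (hG : Y.Good X.m) (hgen : Y.Gen X.m (WR X R))
    (hbig : ∀ x : R.F, IsAlgebraic (Subfield.closure ((KR R : Set R.F) ∪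
        {v | ∃ j, ∃ s ∈ WR X R j, ∃ s' ∈ WR X R j, v = s / s'}) : Subfield R.F) x)
    (hE : ∀ a, ∀ x ∈ ER X R a, x ≠ 0 ∧ x ∈ Y.A a) {g₀ : Fin X.k → I → R.F}
    (hg₀ : ∀ a j, g₀ a j ∈ WR X R j ∧ _root_.KM.UnitOf (Y.A a) (g₀ a j * Y.d a j ^ X.m))
    (hcod : ∀ a, ∀ x ∈ ER X R a, ∀ r : Fin (n - 1) → R.F,
          (∀ k, ∃ j, ∃ s ∈ WR X R j, r k = s / g₀ a j) →
          ∃ P : MvPolynomial (Fin (n - 1)) (KR R), P ≠ 0 ∧
            ∃ c ∈ Y.A a, MvPolynomial.aeval r P = x * c) :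
    Hart (fun a i => R.r (X.x a i)) X.co Y := by
  have := KR_perfect R
  intro T f hf
  exact hG.hartG (KR_FG R) (KR_rk R) hgen hbig (ER X R) hE hg₀ hcod fun a => pole_of (hE a) (hf a)

/-- **the theorem at the reductions** -/
theorem ev_theorem (hX : X.Ok) (hcd : X.Cod) (hN : 0 < X.N) : Ev X.t X.y0 fun R =>
    ∃ Y : _root_.KM.Atl (KR R) (Fin X.k) I, IsY X R Y ∧ Y.Good X.m ∧
      ∑ i, (X.c i : ℝ) / X.q ≤ 2 * n ∧
      (∑ i, (X.c i : ℝ) / X.q = 2 * n → ∃ J : Finset I, J.card = n ∧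
        (∀ i, ∃ j ∈ J, ∃ g, g ≠ 0 ∧ g ∈ Y.V (_root_.KM.e i 1 - _root_.KM.e j 1) ∧
          g⁻¹ ∈ Y.V (_root_.KM.e j 1 - _root_.KM.e i 1)) ∧
        (∀ u ∈ _root_.KM.Nn J, Module.finrank (KR R) (Y.V u) = ∏ j ∈ J, ((u j).toNat + 1)) ∧
        ∀ s₀ s₁ : I → R.F, (∀ j ∈ J, s₀ j ∈ Y.V (_root_.KM.e j 1) ∧
          s₁ j ∈ Y.V (_root_.KM.e j 1) ∧ s₀ j ≠ 0 ∧ s₁ j / s₀ j ∉ KR R) →
          AlgebraicIndependent (KR R) (fun j : J => s₁ j / s₀ j)) := by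
  obtain ⟨l₀, hC⟩ := partC hX hN
  have hm : 0 < X.a * X.q := Nat.mul_pos hX.a_pos hX.q_pos
  refine (((ev_good hX hcd hN).and hC).and ((ev_dvd (X.a * X.q) hm).and
    (ev_large (X.a * X.q * (l₀ + 2) + n + 1)))).mono fun R hR => ?_
  obtain ⟨⟨⟨Y, hY, hG, hgen, hbig, hE, g₀, hg₀, hcod⟩, hC⟩, ⟨j, hj⟩, hlarge⟩ := hR
  have hp1 : 1 ≤ R.p := R.hp.out.one_le
  have hj1 : l₀ + 1 < j := by
    by_contra hcon
    have h1 : X.a * X.q * j ≤ X.a * X.q * (l₀ + 1) := Nat.mul_le_mul_left _ (not_lt.1 hcon)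
    have h2 : X.a * X.q * (l₀ + 1) ≤ X.a * X.q * (l₀ + 2) := Nat.mul_le_mul_left _ (by omega)
    omega
  obtain ⟨l, rfl⟩ : ∃ l, j = l + 1 := ⟨j - 1, by omega⟩
  have hp : R.p = X.a * X.q * (l + 1) + 1 := by omega
  have hn : n < R.p := by omega
  have hH : Hart (fun a i => R.r (X.x a i)) X.co Y := hart_of hG hgen hbig hE hg₀ hcod
  obtain ⟨τ, hτ, hV, hHH⟩ := hC l (by omega) hp hn (KR R) Y hY.A hY.d hH
    (fun f hf => (hG.zero_iff f).1 hf)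
  have := KR_perfect R
  refine ⟨Y, hY, hG, ?_⟩
  have hq : (X.q : ℝ) ≠ 0 := Nat.cast_ne_zero.2 hX.q_pos.ne'
  refine hG.asmG (p := R.p) (KR_FG R) (KR_rk R) hgen hbig (ER X R) hE hg₀ hcod
    (a := fun i => (X.c i : ℝ) / X.q)
    (fun i => div_pos (Nat.cast_pos.2 (hX.c_pos i)) (Nat.cast_pos.2 hX.q_pos))
    (A := ((l + 1 : ℕ) : ℤ) • bZ fun i => X.a * X.c i) (fun i => ?_) hτ
    (fun T y hy a => pole_of (hE a) (hV T y hy a)) (fun u _ c hc hc0 N₁ => ?_)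
  · rw [Pi.smul_apply, bZ, smul_eq_mul, hp]
    push_cast
    field_simp
    ring
  · obtain ⟨M, hM, y, hy, hy1⟩ := hHH u c hc hc0 N₁
    refine ⟨M, hM, y, ?_, hy1⟩
    rw [natCast_zsmul]
    exact hy

end Pool.Agent.Lib.MP_732f67_ag.T
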