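import Pool.Agent.Lib.MP_732f67_ag.T.JacR
import Pool.Agent.Lib.MP_732f67_ag.G.EtE
import Pool.Agent.Lib.MP_732f67_ag.KC.GeoJ

/-!
# Project KM, transfer: transition matrices of the log forms over `ℂ`
-/

set_option autoImplicit false

namespace Pool.Agent.Lib.MP_732f67_ag.T

open Pool.Agent.KM
open Pool.Agent.Lib.MP_732f67_ag.KC (ev2 A2 ep jac bet AJ ceα)
open Pool.Agent.Lib.MP_732f67_ag.V (AR)

variable {L : Type} [Field L] [Algebra ℂ L] {n : ℕ}

/-- derivations on a standard étale chart -/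
theorem der_chart {A : Subalgebra ℂ L} {x : Fin n → L} {w u : L} (h : IsCh A x w u) {a : L}
    (ha : a ∈ A) : ∃ g : Fin n → L, (∀ l, g l ∈ A) ∧
      ∀ D : Derivation ℂ L L, D a = ∑ l, g l * D (x l) := by
  obtain ⟨D', hD'⟩ := exists_der h.tb
  have hx1 : ∀ i l, D' i (x l) ∈ A := fun i l => by
    rw [hD']
    split_ifs
    · exact A.one_mem
    · exact A.zero_mem
  refine ⟨fun l => D' l a, fun l => h.der (D' l) (hx1 l) a ha, fun D => ?_⟩
  rw [der_frame h.tb hD' D a]
  exact Finset.sum_congr rfl fun l _ => mul_comm _ _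

variable {I : Type} [Fintype I] {X : AtD L n I}

/-- derivations on the intersection of two charts -/
theorem der_pair (hX : X.Ok) (a b : Fin X.k) {v : L} (hv : v ∈ AR ℂ X.z X.σ {a, b}) :
    ∃ g : Fin n → L, (∀ l, g l ∈ AR ℂ X.z X.σ {a, b}) ∧
      ∀ D : Derivation ℂ L L, D v = ∑ l, g l * D (X.x a l) := by
  have h := hX.ch a
  obtain ⟨D', hD'⟩ := exists_der h.tb
  have hle : X.A a ≤ AR ℂ X.z X.σ {a, b} := by
    show chA X.z (X.σ a) ≤ _
    refine Algebra.adjoin_mono ?_
    rintro _ ⟨i, rfl⟩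
    exact ⟨i, a, by simp, rfl⟩
  have hx1 : ∀ i l, D' i (X.x a l) ∈ X.A a := fun i l => by
    rw [hD']
    split_ifs
    · exact (X.A a).one_mem
    · exact (X.A a).zero_mem
  have hdA : ∀ l, ∀ w ∈ X.A a, D' l w ∈ X.A a := fun l => h.der (D' l) (hx1 l)
  have hza : ∀ j, X.z j / X.z (X.σ a) ∈ X.A a := fun j => Algebra.subset_adjoin ⟨j, rfl⟩
  have hgb : X.z (X.σ a) / X.z (X.σ b) ∈ AR ℂ X.z X.σ {a, b} :=
    Algebra.subset_adjoin ⟨X.σ a, b, by simp, rfl⟩
  have key : ∀ l, D' l v ∈ AR ℂ X.z X.σ {a, b} := by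
    intro l
    unfold AR at hv
    induction hv using Algebra.adjoin_induction with
    | mem v hv =>
      obtain ⟨j, c, hc, rfl⟩ := hv
      rw [Finset.mem_insert, Finset.mem_singleton] at hc
      rcases hc with rfl | rfl
      · exact hle (hdA l _ (hza j))
      · have hn := hX.z_ne (X.σ a)
        have hn' := hX.z_ne (X.σ c)
        have e : X.z j / X.z (X.σ c) = (X.z j / X.z (X.σ a)) / (X.z (X.σ c) / X.z (X.σ a)) := by
          field_simp
        rw [e, Derivation.leibniz_div]
        have e2 : (X.z (X.σ c) / X.z (X.σ a))⁻¹ = X.z (X.σ a) / X.z (X.σ c) := by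
          rw [inv_div]
        simp only [smul_eq_mul]
        rw [e2]
        refine mul_mem (pow_mem hgb 2) (sub_mem ?_ ?_)
        · exact hle (mul_mem (hza _) (hdA l _ (hza j)))
        · exact hle (mul_mem (hza _) (hdA l _ (hza _)))
    | algebraMap r => rw [Derivation.map_algebraMap]; exact zero_mem _
    | add x y _ _ hx hy => rw [map_add]; exact add_mem hx hy
    | mul x y hx0 hy0 hx hy =>
      rw [Derivation.leibniz]
      exact add_mem (mul_mem hx0 hy) (mul_mem hy0 hx)
  refine ⟨fun l => D' l v, key, fun D => ?_⟩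
  rw [der_frame h.tb hD' D v]
  exact Finset.sum_congr rfl fun l _ => mul_comm _ _

theorem x_ne (hX : X.Ok) (a : Fin X.k) (l : Fin n) : X.x a l ≠ 0 := by
  exact ((hX.ch a).tb.1).ne_zero l

theorem jacC_ne (hX : X.Ok) (a : Fin X.k) : X.jac a ≠ 0 := by
  intro h0
  have h1 := (hX.can a).1
  rw [h0, zero_pow hX.q_pos.ne', inv_zero, mul_zero, zero_mul, zero_mul] at h1
  exact h1 rfl

omit [Fintype I] in
theorem A_le_AR (X : AtD L n I) (a b : Fin X.k) : X.A a ≤ AR ℂ X.z X.σ {a, b} := by
  show chA X.z (X.σ a) ≤ _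
  refine Algebra.adjoin_mono ?_
  rintro _ ⟨i, rfl⟩
  exact ⟨i, a, by simp, rfl⟩

theorem x_mem (hX : X.Ok) (a : Fin X.k) (l : Fin n) : X.x a l ∈ X.A a := by
  rw [(hX.ch a).A_eq]
  exact Algebra.subset_adjoin (Or.inl ⟨l, rfl⟩)

theorem jac_ratio (hX : X.Ok) (a b : Fin X.k) : X.jac b / X.jac a ∈ AR ℂ X.z X.σ {a, b} := by
  have h1 : ∀ i, ∃ g : Fin n → L, (∀ l, g l ∈ AR ℂ X.z X.σ {a, b}) ∧
      ∀ D : Derivation ℂ L L, D (X.x b i) = ∑ l, g l * D (X.x a l) := by
    intro i
    refine der_pair hX a b ?_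
    rw [Finset.pair_comm]
    exact A_le_AR X b a (x_mem hX b i)
  choose g hg hgD using h1
  have h2 : X.jac b = (Matrix.of g).det * X.jac a := by
    unfold AtD.jac
    have h3 : (Matrix.of fun i l => X.D i (X.x b l)) =
        (Matrix.of fun i l => X.D i (X.x a l)) * (Matrix.of g).transpose := by
      ext i l
      rw [Matrix.mul_apply, Matrix.of_apply, hgD l (X.D i)]
      exact Finset.sum_congr rfl fun j _ => by
        rw [Matrix.transpose_apply, Matrix.of_apply, Matrix.of_apply, mul_comm]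
    rw [h3, Matrix.det_mul, Matrix.det_transpose, mul_comm]
  rw [h2, mul_div_cancel_right₀ _ (jacC_ne hX a)]
  rw [Matrix.det_apply]
  refine sum_mem fun s _ => ?_
  rw [Units.smul_def]
  refine zsmul_mem (prod_mem fun i _ => hg _ _) _

/-- the Jacobian determinants differ by units -/
theorem jac_trans (hX : X.Ok) (a b : Fin X.k) : Un (AR ℂ X.z X.σ {a, b}) (X.jac b / X.jac a) := by
  refine ⟨div_ne_zero (jacC_ne hX b) (jacC_ne hX a), jac_ratio hX a b, ?_⟩
  rw [inv_div, Finset.pair_comm]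
  exact jac_ratio hX b a

theorem ε_ne (hX : X.Ok) (a : Fin X.k) (j : Fin X.s) : X.ε a j ≠ 0 := by
  unfold AtD.ε eps
  cases X.co a j with
  | none => exact one_ne_zero
  | some l => exact x_ne hX a l

/-- the local equations differ by units -/
theorem ε_un (hX : X.Ok) (a b : Fin X.k) (j : Fin X.s) :
    Un (AR ℂ X.z X.σ {a, b}) (X.ε b j / X.ε a j) := by
  refine ⟨div_ne_zero (ε_ne hX b j) (ε_ne hX a j), ?_, ?_⟩
  · rw [← sup_eq_AR, sup_comm]
    exact hX.ε_trans b a j
  · rw [inv_div, ← sup_eq_AR]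
    exact hX.ε_trans a b j

/-- the product of the determinant and the local equations -/
theorem bet_det_mul (hX : X.Ok) (a : Fin X.k) :
    (Matrix.of (bet (DZ X.D) X.x X.co a)).det * ∏ j, X.ε a j = X.jac a := by
  classical
  have h1 : Matrix.of (bet (DZ X.D) X.x X.co a) =
      Matrix.of fun l k => (if ∃ j, X.co a j = some l then (X.x a l)⁻¹ else 1) *
        (Matrix.of (fun l k => DZ X.D k (X.x a l)) : Matrix (Fin n) (Fin n) L) l k := by
    ext l k
    rw [Matrix.of_apply, Matrix.of_apply, Matrix.of_apply, bet]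
    split_ifs with hl
    · rw [mul_comm, ← div_eq_mul_inv]
    · rw [one_mul]
  have h2 : ∏ j, X.ε a j = ∏ l, if ∃ j, X.co a j = some l then X.x a l else 1 := by
    have h3 := KC.prod_ep (x := X.x) hX.co_inj a
    refine (Finset.prod_congr rfl fun j _ => (ep_eq X a j).symm).trans (h3.trans ?_)
    exact Finset.prod_congr rfl fun l _ => by congr
  rw [h1, Matrix.det_mul_column, h2, mul_right_comm, ← Finset.prod_mul_distrib,
    Finset.prod_eq_one, one_mul]
  · exact jac_eq X a
  · intro l _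
    split_ifs with hl
    · exact inv_mul_cancel₀ (x_ne hX a l)
    · exact one_mul 1

theorem bet_det (hX : X.Ok) (a : Fin X.k) : (Matrix.of (bet (DZ X.D) X.x X.co a)).det ≠ 0 := by
  intro h0
  have h1 := bet_det_mul hX a
  rw [h0, zero_mul] at h1
  exact jacC_ne hX a h1.symm

/-- differentials in terms of the log forms -/
theorem der_bet (hX : X.Ok) (a b : Fin X.k) {v : L} (hv : v ∈ AR ℂ X.z X.σ {a, b}) :
    ∃ c : Fin n → L, (∀ j, c j ∈ AR ℂ X.z X.σ {a, b}) ∧
      (fun k => DZ X.D k v) = ∑ j, c j • bet (DZ X.D) X.x X.co a j := by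
  classical
  obtain ⟨g, hg, hgD⟩ := der_pair hX a b hv
  refine ⟨fun l => if ∃ j, X.co a j = some l then g l * X.x a l else g l, fun l => ?_, ?_⟩
  · dsimp only
    split_ifs
    · exact mul_mem (hg l) (A_le_AR X a b (x_mem hX a l))
    · exact hg l
  · funext k
    rw [Finset.sum_apply]
    show X.D k v = _
    rw [hgD (X.D k)]
    refine Finset.sum_congr rfl fun l _ => ?_
    rw [Pi.smul_apply, smul_eq_mul]
    unfold bet
    have hx := x_ne hX a l
    dsimp only
    by_cases hl : ∃ j, X.co a j = some l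
    · rw [if_pos hl, if_pos hl]
      show g l * X.D k (X.x a l) = g l * X.x a l * (X.D k (X.x a l) / X.x a l)
      field_simp
    · rw [if_neg hl, if_neg hl]
      rfl

/-- the transition matrices of the log forms -/
theorem bet_trans (hX : X.Ok) (a b : Fin X.k) (i : Fin n) :
    ∃ c : Fin n → L, (∀ j, c j ∈ AR ℂ X.z X.σ {a, b}) ∧
      bet (DZ X.D) X.x X.co b i = ∑ j, c j • bet (DZ X.D) X.x X.co a j := by
  classical
  by_cases hi : ∃ j, X.co b j = some i
  · obtain ⟨j, hj⟩ := hi
    have hb : bet (DZ X.D) X.x X.co b i = fun k => X.D k (X.x b i) / X.x b i := by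
      unfold bet
      rw [if_pos ⟨j, hj⟩]
      rfl
    have hxb : X.ε b j = X.x b i := by
      unfold AtD.ε eps
      rw [hj]
    obtain ⟨v0, v1, v2⟩ := ε_un hX a b j
    obtain ⟨c, hc, hcD⟩ := der_bet hX a b v1
    set v := X.ε b j / X.ε a j with hv
    have hεa := ε_ne hX a j
    have hεb := ε_ne hX b j
    have hvx : X.x b i = v * X.ε a j := by
      rw [hv, div_mul_cancel₀ _ hεa, hxb]
    have hD : ∀ k, X.D k (X.x b i) / X.x b i = v⁻¹ * X.D k v + X.D k (X.ε a j) / X.ε a j := by
      intro k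
      rw [hvx, Derivation.leibniz, smul_eq_mul, smul_eq_mul]
      field_simp
      ring
    -- the log form of `ε a j`
    have hl : ∃ e : Fin n → L, (∀ j, e j ∈ AR ℂ X.z X.σ {a, b}) ∧
        (fun k => X.D k (X.ε a j) / X.ε a j) = ∑ l, e l • bet (DZ X.D) X.x X.co a l := by
      cases hco : X.co a j with
      | none =>
        refine ⟨0, fun _ => zero_mem _, ?_⟩
        have h1 : X.ε a j = 1 := by
          unfold AtD.ε eps
          rw [hco]
        funext k
        rw [h1, Derivation.map_one_eq_zero, zero_div]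
        simp
      | some l =>
        refine ⟨Pi.single l 1, fun m => ?_, ?_⟩
        · rw [Pi.single_apply]
          split_ifs
          · exact one_mem _
          · exact zero_mem _
        · have h1 : X.ε a j = X.x a l := by
            unfold AtD.ε eps
            rw [hco]
          have h2 : ∑ m, (Pi.single l (1 : L) : Fin n → L) m • bet (DZ X.D) X.x X.co a m =
              bet (DZ X.D) X.x X.co a l := by
            rw [Finset.sum_eq_single l]
            · rw [Pi.single_eq_same, one_smul]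
            · intro m _ hm
              rw [Pi.single_eq_of_ne hm, zero_smul]
            · intro h
              exact absurd (Finset.mem_univ _) h
          rw [h2, h1]
          unfold bet
          rw [if_pos ⟨j, hco⟩]
          rfl
    obtain ⟨e, he, heD⟩ := hl
    refine ⟨fun l => v⁻¹ * c l + e l, fun l => add_mem (mul_mem v2 (hc l)) (he l), ?_⟩
    rw [hb]
    funext k
    rw [Finset.sum_apply, hD k]
    have h3 := congrFun hcD k
    have h4 := congrFun heD k
    rw [Finset.sum_apply] at h3 h4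
    have h3' : X.D k v = ∑ m, (c m • bet (DZ X.D) X.x X.co a m) k := h3
    rw [h3', h4, Finset.mul_sum, ← Finset.sum_add_distrib]
    refine Finset.sum_congr rfl fun m _ => ?_
    simp only [Pi.smul_apply, smul_eq_mul]
    ring
  · have hb : bet (DZ X.D) X.x X.co b i = fun k => DZ X.D k (X.x b i) := by
      unfold bet
      rw [if_neg hi]
    rw [hb]
    refine der_bet hX a b ?_
    rw [Finset.pair_comm]
    exact A_le_AR X b a (x_mem hX b i)

/-- the generator of the lattice without `O(l)`, over `ℂ` -/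
noncomputable def kapC (X : AtD L n I) (a : Fin X.k) : L :=
  (X.jac a)⁻¹ * ∏ j, ep X.x X.co a j ^ (1 - ceα (X.a * X.q) X.b j)

/-- the generator of `O(⌈α⌉ E)`, over `ℂ` -/
noncomputable def phiC (X : AtD L n I) (a : Fin X.k) : L :=
  ∏ j, ep X.x X.co a j ^ (-ceα (X.a * X.q) X.b j)

theorem kapC_ne (hX : X.Ok) (a : Fin X.k) : kapC X a ≠ 0 := by
  unfold kapC
  refine mul_ne_zero (inv_ne_zero (jacC_ne hX a)) (Finset.prod_ne_zero_iff.2 fun j _ => ?_)
  rw [ep_eq]
  exact zpow_ne_zero _ (ε_ne hX a j)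

theorem phiC_ne (hX : X.Ok) (a : Fin X.k) : phiC X a ≠ 0 := by
  unfold phiC
  refine Finset.prod_ne_zero_iff.2 fun j _ => ?_
  rw [ep_eq]
  exact zpow_ne_zero _ (ε_ne hX a j)

theorem Un.zpow {A : Subalgebra ℂ L} {v : L} (h : Un A v) (k : ℤ) : v ^ k ∈ A := by
  cases k with
  | ofNat k => rw [Int.ofNat_eq_natCast, zpow_natCast]; exact pow_mem h.2.1 k
  | negSucc k => rw [zpow_negSucc, ← inv_pow]; exact pow_mem h.2.2 _

theorem prod_ratio (hX : X.Ok) (a b : Fin X.k) (e : Fin X.s → ℤ) :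
    (∏ j, ep X.x X.co b j ^ e j) / ∏ j, ep X.x X.co a j ^ e j ∈ AR ℂ X.z X.σ {a, b} := by
  rw [← Finset.prod_div_distrib]
  refine prod_mem fun j _ => ?_
  rw [ep_eq, ep_eq, ← div_zpow]
  exact Un.zpow (ε_un hX a b j) _

theorem kapC_trans (hX : X.Ok) (a b : Fin X.k) : kapC X b / kapC X a ∈ AR ℂ X.z X.σ {a, b} := by
  unfold kapC
  rw [mul_div_mul_comm]
  refine mul_mem ?_ (prod_ratio hX a b _)
  have h := (jac_trans hX a b).2.2
  rw [inv_div] at h
  rwa [inv_div_inv]

theorem phiC_trans (hX : X.Ok) (a b : Fin X.k) : phiC X b / phiC X a ∈ AR ℂ X.z X.σ {a, b} :=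
  prod_ratio hX a b _

end Pool.Agent.Lib.MP_732f67_ag.T
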