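import Pool.Agent.Lib.MP_732f67_ag.T.Chart

/-!
# Project KM, transfer: the structure `KC.Geo` at the reductions
-/

set_option autoImplicit false

namespace Pool.Agent.Lib.MP_732f67_ag.T

open Pool.Agent.KM
open Pool.Agent.Lib.MP_732f67_ag.KC (ev2 A2 ep jac bet AJ)
open Pool.Agent.Lib.MP_732f67_ag.V (AR)

variable {L : Type} [Field L] [Algebra ℂ L] {n : ℕ} {I : Type} [Fintype I] {X : AtD L n I}

/-- the elements of the span of the `z j` are values of linear forms -/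
theorem geoR_lin {N : ℕ} (z : Fin N → L) {v : L} (hv : v ∈ Submodule.span ℂ (Set.range z)) :
    ∃ P : MvPolynomial (Fin N) ℂ, P.IsHomogeneous 1 ∧ MvPolynomial.aeval z P = v := by
  obtain ⟨c, rfl⟩ := (Submodule.mem_span_range_iff_exists_fun ℂ).1 hv
  refine ⟨∑ i, MvPolynomial.C (c i) * MvPolynomial.X i,
    MvPolynomial.IsHomogeneous.sum _ _ _ fun i _ => ?_, ?_⟩
  · have h := (MvPolynomial.isHomogeneous_C (Fin N) (c i)).mul
      (MvPolynomial.isHomogeneous_X ℂ i)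
    rwa [zero_add] at h
  · rw [map_sum]
    refine Finset.sum_congr rfl fun i _ => ?_
    rw [map_mul, MvPolynomial.aeval_C, MvPolynomial.aeval_X, Algebra.smul_def]

/-- the elements of the powers are values of homogeneous polynomials -/
theorem geoR_pow {N : ℕ} (z : Fin N → L) (M : ℕ) {v : L}
    (hv : v ∈ Submodule.span ℂ (Set.range z) ^ M) :
    ∃ P : MvPolynomial (Fin N) ℂ, P.IsHomogeneous M ∧ MvPolynomial.aeval z P = v := by
  induction M generalizing v with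
  | zero =>
    rw [pow_zero] at hv
    obtain ⟨c, rfl⟩ := Submodule.mem_one.1 hv
    exact ⟨MvPolynomial.C c, MvPolynomial.isHomogeneous_C _ _, MvPolynomial.aeval_C _ _⟩
  | succ M ih =>
    rw [pow_succ] at hv
    refine Submodule.mul_induction_on hv ?_ ?_
    · intro a ha b hb
      obtain ⟨P, hP, rfl⟩ := ih ha
      obtain ⟨Q, hQ, rfl⟩ := geoR_lin z hb
      exact ⟨P * Q, hP.mul hQ, map_mul _ _ _⟩
    · rintro a b ⟨P, hP, rfl⟩ ⟨Q, hQ, rfl⟩
      exact ⟨P + Q, hP.add hQ, map_add _ _ _⟩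

/-- the cover with homogeneous polynomials -/
theorem cov_poly (hX : X.Ok) : ∃ M : ℕ, ∀ j, ∃ s : Fin X.k → MvPolynomial (Fin X.N) ℂ,
    (∀ a, (s a).IsHomogeneous M) ∧
      X.z j ^ (M + 1) = ∑ a, X.z (X.σ a) * MvPolynomial.aeval X.z (s a) := by
  obtain ⟨M, hM⟩ := hX.cov
  refine ⟨M, fun j => ?_⟩
  have key : ∀ v ∈ Submodule.span ℂ (Set.range fun a => X.z (X.σ a)) *
      (Submodule.span ℂ (Set.range X.z)) ^ M, ∃ s : Fin X.k → MvPolynomial (Fin X.N) ℂ,
        (∀ a, (s a).IsHomogeneous M) ∧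
          v = ∑ a, X.z (X.σ a) * MvPolynomial.aeval X.z (s a) := by
    intro v hv
    refine Submodule.mul_induction_on hv ?_ ?_
    · intro a ha b hb
      obtain ⟨c, rfl⟩ := (Submodule.mem_span_range_iff_exists_fun ℂ).1 ha
      obtain ⟨P, hP, rfl⟩ := geoR_pow X.z M hb
      refine ⟨fun i => MvPolynomial.C (c i) * P, fun i => ?_, ?_⟩
      · have h := (MvPolynomial.isHomogeneous_C (Fin X.N) (c i)).mul hP
        rwa [zero_add] at h
      · rw [Finset.sum_mul]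
        refine Finset.sum_congr rfl fun i _ => ?_
        rw [map_mul, MvPolynomial.aeval_C, Algebra.smul_def]
        ring
    · rintro a b ⟨s, hs, rfl⟩ ⟨s', hs', rfl⟩
      refine ⟨fun i => s i + s' i, fun i => (hs i).add (hs' i), ?_⟩
      rw [← Finset.sum_add_distrib]
      refine Finset.sum_congr rfl fun i _ => ?_
      rw [map_add, mul_add]
  exact key _ (hM j)

/-- the cover at the reductions -/
theorem ev_cov (hX : X.Ok) : Ev X.t X.y0 fun R => ∃ M : ℕ, ∀ j,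
    ∃ s : Fin X.k → MvPolynomial (Fin X.N) ℤ, (∀ a, (s a).IsHomogeneous M) ∧
      R.r (X.z j) ^ (M + 1) =
        ∑ a, R.r (X.z (X.σ a)) * MvPolynomial.aeval (fun i => R.r (X.z i)) (s a) := by
  obtain ⟨M, hM⟩ := cov_poly hX
  choose s hs hs' using hM
  refine ((Ev.all fun i : Fin X.N => ev_mem (X.z i)).and (Ev.all fun j : Fin X.N =>
    Ev.all fun a : Fin X.k => lift_mv (s j a))).mono fun R hR => ⟨M, fun j => ?_⟩
  obtain ⟨hz, hP⟩ := hR
  choose P hP hP' using hP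
  refine ⟨P j, fun a d hd => hs j a fun h => hd (hP j a d h), ?_⟩
  have h1 : ∀ a, MvPolynomial.aeval X.z (s j a) ∈ R.Λ := fun a => (hP' j a X.z hz).1
  rw [← R.r_pow (hz j), hs' j, R.r_sum _ _ fun a _ => R.Λ.mul_mem (hz _) (h1 a)]
  refine Finset.sum_congr rfl fun a _ => ?_
  rw [R.r_mul (hz _) (h1 a), (hP' j a X.z hz).2.2]

theorem geoR_eps (X : AtD L n I) (R : Red L X.t X.y0) (a : Fin X.k) (j : Fin X.s) :
    ep (fun a i => R.r2 (X.x a i)) X.co a j = R.r2 (X.ε a j) := by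
  unfold ep AtD.ε
  cases X.co a j with
  | none => exact R.r2_one.symm
  | some l => rfl

/-- **the charts modulo `p ^ 2`** -/
theorem ev_geo (hX : X.Ok) : Ev X.t X.y0 fun R =>
    ∃ f : Fin X.k → Polynomial (MvPolynomial (Fin n) ℤ),
      KC.Geo R.p R.π (fun j => R.r2 (X.z j)) (fun j => R.r2 (X.z j)⁻¹) X.σ
        (fun a i => R.r2 (X.x a i)) (fun a => R.r2 (X.y a)) (fun a => R.r2 (X.u a)) f X.co := by
  have hx0 : ∀ a i, X.x a i ≠ 0 := fun a i => (hX.ch a).tb.1.ne_zero i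
  have hε0 : ∀ a j, X.ε a j ≠ 0 := by
    intro a j
    unfold AtD.ε
    cases X.co a j with
    | none => exact one_ne_zero
    | some l => exact hx0 a l
  have hv : ∀ a b j, X.ε a j / X.ε b j ∈ AR ℂ X.z X.σ {a, b} := by
    intro a b j
    rw [← sup_eq_AR]
    exact hX.ε_trans a b j
  have hw : ∀ a b j, X.ε b j / X.ε a j ∈ AR ℂ X.z X.σ {a, b} := by
    intro a b j
    rw [Finset.pair_comm]
    exact hv b a j
  have e1 := Ev.all (t := X.t) (y := X.y0) fun j => ev_ne (hX.z_ne j)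
  have e2 := Ev.all (t := X.t) (y := X.y0) fun a => Ev.all fun i => ev_ne (hx0 a i)
  have e3 := Ev.all (t := X.t) (y := X.y0) fun a => ev_isCh hX.prim.basis (hX.ch a)
  have e4 := Ev.all (t := X.t) (y := X.y0) fun a => ev_ring_eq hX.z_ne X.σ a (hX.ch a)
  have e5 := Ev.all (t := X.t) (y := X.y0) fun a => Ev.all fun b => Ev.all fun j =>
    ev_AR hX.z_ne X.σ {a, b} (hv a b j)
  have e6 := Ev.all (t := X.t) (y := X.y0) fun a => Ev.all fun b => Ev.all fun j =>
    ev_AR hX.z_ne X.σ {a, b} (hw a b j)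
  refine ((e1.and (e2.and e3)).and ((e4.and (ev_cov hX)).and (e5.and e6))).mono fun R hR => ?_
  obtain ⟨⟨h1, h2, h3⟩, ⟨h4, h7⟩, h5, h6⟩ := hR
  choose h31 h32 h33 f hf using h3
  refine ⟨f, ⟨⟨R.surj, R.ker, R.flat⟩, fun j => R.r2_inv (hX.z_ne j) (h1 j).1 (h1 j).2.1,
    fun a => (hf a).1, fun a => (hf a).2.2.1, h4, fun a => (hf a).2.2.2.1,
    fun a => (hf a).2.2.2.2.1, fun a => (hf a).2.2.2.2.2.1, fun a => (hf a).2.2.2.2.2.2,
    fun a i => (h2 a i).2.2, hX.co_inj, fun a b j => ?_, h7⟩⟩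
  have hεm : ∀ a j, X.ε a j ∈ R.Λ := by
    intro a j
    unfold AtD.ε
    cases X.co a j with
    | none => exact R.Λ.one_mem
    | some l => exact (h2 a l).1
  refine ⟨R.r2 (X.ε a j / X.ε b j), (h5 a b j).2.1, R.r2 (X.ε b j / X.ε a j), (h6 a b j).2.1,
    ?_, ?_⟩
  · rw [← R.r2_mul (h5 a b j).1 (h6 a b j).1, div_mul_div_cancel₀ (hε0 b j),
      div_self (hε0 a j), R.r2_one]
  · rw [geoR_eps, geoR_eps, ← R.r2_mul (h5 a b j).1 (hεm b j), div_mul_cancel₀ _ (hε0 b j)]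

end Pool.Agent.Lib.MP_732f67_ag.T
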