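import Pool.Agent.Lib.MP_732f67_ag.T.DerC
import Pool.Agent.Lib.MP_732f67_ag.T.GeoR
import Pool.Agent.Lib.MP_732f67_ag.V.Out1
import Pool.Agent.Lib.MP_732f67_ag.V.Out2

/-!
# Project KM, transfer: the vanishing and the generation at the reductions
-/

set_option autoImplicit false

namespace Pool.Agent.Lib.MP_732f67_ag.T

open Pool.Agent.KM
open Pool.Agent.Lib.MP_732f67_ag.KC (ev2 A2 ep jac bet AJ ceα kap phi KVan Kl)
open Pool.Agent.Lib.MP_732f67_ag.V (AR)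

variable {L : Type} [Field L] [Algebra ℂ L] {n : ℕ} {I : Type} [Fintype I] {X : AtD L n I}

/-- homogeneous polynomials in the `ℤ`-graded language -/
theorem vgeo_hom {N M : ℕ} {s : MvPolynomial (Fin N) ℂ} (h : s.IsHomogeneous M) :
    Pool.Agent.Lib.MP_0b721b_ag.St.Hom ℂ N (M : ℤ) s := by
  intro d hd
  rw [h.degree_eq_sum_deg_support hd]
  push_cast
  symm
  exact Finset.sum_subset (Finset.subset_univ _) fun i _ hi => by
    rw [Finsupp.notMem_support_iff.1 hi, Nat.cast_zero]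

/-- the hypotheses of part V -/
theorem vgeo (hX : X.Ok) : V.Geo n X.z X.σ := by
  refine ⟨hX.z_ne, fun j => ?_, fun a => ?_⟩
  · obtain ⟨M, hM⟩ := cov_poly hX
    obtain ⟨s, hs, hz⟩ := hM j
    exact ⟨M, s, fun a => vgeo_hom (hs a), hz⟩
  · have h := hX.ch a
    obtain ⟨f, hf, hirr, h0, -, -⟩ := h.pol
    refine ⟨X.x a, X.y a, X.u a, f, h.tb, hf, hirr, h0, h.u_ne, ?_, ?_⟩
    · have h1 := h.u_inv
      rwa [Set.union_singleton] at h1
    · have h1 := h.A_eq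
      have h2 : Set.range (X.x a) ∪ {X.y a, X.u a} =
          insert (X.u a) (insert (X.y a) (Set.range (X.x a))) := by
        ext v
        simp only [Set.mem_union, Set.mem_insert_iff, Set.mem_singleton_iff]
        tauto
      rw [h2] at h1
      exact h1

/-- integer powers of reductions -/
theorem vgeo_zpow {t : Fin n → L} {y : L} (R : Red L t y) {v : L} (h0 : v ≠ 0) (h : v ∈ R.Λ)
    (h' : v⁻¹ ∈ R.Λ) (k : ℤ) : v ^ k ∈ R.Λ ∧ R.r (v ^ k) = R.r v ^ k := by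
  cases k with
  | ofNat k =>
    rw [Int.ofNat_eq_natCast, zpow_natCast, zpow_natCast]
    exact ⟨R.Λ.pow_mem h k, R.r_pow h k⟩
  | negSucc k =>
    rw [zpow_negSucc, zpow_negSucc, ← inv_pow, ← inv_pow, R.r_pow h', R.r_inv h0 h h']
    exact ⟨R.Λ.pow_mem h' _, rfl⟩

/-- products of integer powers of the local equations -/
theorem vgeo_prod (hX : X.Ok) (e : Fin X.s → ℤ) : Ev X.t X.y0 fun R => ∀ a,
    ∏ j, ep X.x X.co a j ^ e j ∈ R.Λ ∧
      R.r (∏ j, ep X.x X.co a j ^ e j) = ∏ j, ep (fun a i => R.r (X.x a i)) X.co a j ^ e j := by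
  have h1 : Ev X.t X.y0 fun R => ∀ a j, ep X.x X.co a j ∈ R.Λ ∧ (ep X.x X.co a j)⁻¹ ∈ R.Λ ∧
      R.r (ep X.x X.co a j) ≠ 0 := Ev.all fun a => Ev.all fun j => ev_ne (by
    rw [ep_eq]
    exact ε_ne hX a j)
  refine (h1.and (ev_ep X)).mono fun R hR a => ?_
  obtain ⟨hR, hE⟩ := hR
  have h2 : ∀ j, ep X.x X.co a j ^ e j ∈ R.Λ ∧
      R.r (ep X.x X.co a j ^ e j) = R.r (ep X.x X.co a j) ^ e j := fun j =>
    vgeo_zpow R (by rw [ep_eq]; exact ε_ne hX a j) (hR a j).1 (hR a j).2.1 (e j)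
  refine ⟨R.Λ.prod_mem fun j _ => (h2 j).1, ?_⟩
  rw [R.r_prod _ _ fun j _ => (h2 j).1]
  exact Finset.prod_congr rfl fun j _ => by rw [(h2 j).2, hE a j]

/-- the vanishing -/
theorem ev_van (hX : X.Ok) : ∃ l₀ : ℕ, Ev X.t X.y0 fun R => ∀ l, l₀ ≤ l →
    ∀ D' : Fin n → Derivation ℤ R.F R.F, Dual R D' →
      KVan (Kl (AJ (fun j => R.r (X.z j)) X.σ) (bet D' (fun a i => R.r (X.x a i)) X.co)
        (kap (X.a * X.q) l (fun j => R.r (X.z j)) X.σ (fun a i => R.r (X.x a i)) X.co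
          (jac D' fun a i => R.r (X.x a i)) X.b)) := by
  obtain ⟨l₀, hl₀⟩ := V.ev_KVan (y := X.y0) hX.prim.basis (vgeo hX)
    (β := bet (DZ X.D) X.x X.co) (κ := kapC X) (bet_det hX) (kapC_ne hX) (bet_trans hX)
    (kapC_trans hX)
  refine ⟨l₀, ?_⟩
  have h1 : Ev X.t X.y0 fun R => ∀ a, X.jac a ∈ R.Λ ∧ (X.jac a)⁻¹ ∈ R.Λ ∧ R.r (X.jac a) ≠ 0 :=
    Ev.all fun a => ev_ne (jacC_ne hX a)
  refine ((hl₀.and (ev_bet hX)).and ((ev_jac hX).and
    (h1.and (vgeo_prod hX fun j => 1 - ceα (X.a * X.q) X.b j)))).mono fun R hR l hl D' hD' => ?_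
  obtain ⟨⟨hK, hB⟩, hJ, hJne, hP⟩ := hR
  have e1 : bet D' (fun a i => R.r (X.x a i)) X.co =
      fun a i k => R.r (bet (DZ X.D) X.x X.co a i k) := by
    funext a i k
    exact hB D' hD' a i k
  have e2 : kap (X.a * X.q) l (fun j => R.r (X.z j)) X.σ (fun a i => R.r (X.x a i)) X.co
      (jac D' fun a i => R.r (X.x a i)) X.b = fun a => R.r (X.z (X.σ a)) ^ l * R.r (kapC X a) := by
    funext a
    unfold kap kapC
    rw [(hJ D' hD' a).2, R.r_mul (hJne a).2.1 (hP a).1,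
      R.r_inv (jacC_ne hX a) (hJne a).1 (hJne a).2.1, (hP a).2, mul_assoc]
  rw [e1, e2]
  exact hK l hl

/-- the surjectivity for any positive number of coordinates -/
theorem vgeo_surj {t : Fin n → L} {y : L} {N : ℕ} (hN : 0 < N) {Λ : Type} [LinearOrder Λ]
    [Fintype Λ] (ht : IsTranscendenceBasis ℂ t) {z : Fin N → L} {σ : Λ → Fin N}
    (hg : V.Geo n z σ) {φ : Λ → L} (hφ : ∀ a, φ a ≠ 0)
    (hφ' : ∀ a b, φ b / φ a ∈ AR ℂ z σ {a, b}) :
    ∃ l₀ : ℕ, Ev t y fun R => ∀ l, l₀ ≤ l → ∀ f : R.F,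
      (∀ a, ∃ x ∈ AJ (fun j => R.r (z j)) σ {a},
        f = R.r (z (σ a)) ^ (l + 1) * R.r (φ a) * x) →
      ∃ g : Fin N → R.F,
        (∀ j a, ∃ x ∈ AJ (fun j => R.r (z j)) σ {a}, g j = R.r (z (σ a)) ^ l * R.r (φ a) * x) ∧
        f = ∑ j, R.r (z j) * g j := by
  obtain ⟨M, rfl⟩ := Nat.exists_eq_add_of_lt hN
  rw [zero_add] at *
  exact V.ev_surj ht hg hφ hφ'

/-- the generation -/
theorem ev_gener (hX : X.Ok) (hN : 0 < X.N) : ∃ l₀ : ℕ, Ev X.t X.y0 fun R => ∀ l, l₀ ≤ l →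
    ∀ s : R.F, (∀ a, ∃ y ∈ AJ (fun j => R.r (X.z j)) X.σ {a},
        s = R.r (X.z (X.σ a)) ^ (l + 1) * phi (X.a * X.q) (fun a i => R.r (X.x a i)) X.co X.b a *
          y) →
      ∃ g : Fin X.N → R.F, (∀ j a, ∃ y ∈ AJ (fun j => R.r (X.z j)) X.σ {a},
        g j = R.r (X.z (X.σ a)) ^ l * phi (X.a * X.q) (fun a i => R.r (X.x a i)) X.co X.b a * y) ∧
        s = ∑ j, R.r (X.z j) * g j := by
  obtain ⟨l₀, hl₀⟩ := vgeo_surj (y := X.y0) hN hX.prim.basis (vgeo hX) (φ := phiC X)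
    (phiC_ne hX) (phiC_trans hX)
  refine ⟨l₀, ?_⟩
  refine (hl₀.and (vgeo_prod hX fun j => -ceα (X.a * X.q) X.b j)).mono fun R hR l hl s hs => ?_
  obtain ⟨hK, hP⟩ := hR
  have e1 : ∀ a, phi (X.a * X.q) (fun a i => R.r (X.x a i)) X.co X.b a = R.r (phiC X a) := by
    intro a
    unfold phi phiC
    exact (hP a).2.symm
  simp only [e1] at hs ⊢
  exact hK l hl s hs

end Pool.Agent.Lib.MP_732f67_ag.T
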