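import Pool.Agent.Lib.MP_732f67_ag.T.Lift
import Pool.Agent.Lib.MP_732f67_ag.G.RedEv

/-!
# Project KM, transfer: the rings of the charts
-/

set_option autoImplicit false

namespace Pool.Agent.Lib.MP_732f67_ag.T

open Pool.Agent.KM
open Pool.Agent.Lib.MP_732f67_ag.KC (ev2 A2 ep jac bet AJ)
open Pool.Agent.Lib.MP_732f67_ag.V (AR)

variable {L : Type} [Field L] [Algebra ℂ L] {n : ℕ} {t : Fin n → L} {y : L} {N : ℕ} {Λ : Type}

/-- elements of the ring of the charts in `J` -/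
theorem ev_AR {z : Fin N → L} (hz : ∀ j, z j ≠ 0) (σ : Λ → Fin N) (J : Finset Λ) {v : L}
    (hv : v ∈ AR ℂ z σ J) :
    Ev t y fun R => v ∈ R.Λ ∧ R.r2 v ∈ A2 (fun j => R.r2 (z j)) (fun j => R.r2 (z j)⁻¹) σ J ∧
      R.r v ∈ AJ (fun j => R.r (z j)) σ J := by
  classical
  let G : Finset L := (Finset.univ ×ˢ J).image fun q => z q.1 / z (σ q.2)
  have hG : (G : Set L) = {a | ∃ j, ∃ l ∈ J, a = z j / z (σ l)} := by
    ext a
    constructor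
    · intro ha
      obtain ⟨q, hq, rfl⟩ := Finset.mem_image.1 (Finset.mem_coe.1 ha)
      exact ⟨q.1, q.2, (Finset.mem_product.1 hq).2, rfl⟩
    · rintro ⟨j, l, hl, rfl⟩
      exact Finset.mem_coe.2 (Finset.mem_image.2 ⟨(j, l),
        Finset.mem_product.2 ⟨Finset.mem_univ _, hl⟩, rfl⟩)
  have hv' : v ∈ Algebra.adjoin ℂ (G : Set L) := by
    rw [hG]
    exact hv
  have hzz : Ev t y fun R => ∀ j, z j ∈ R.Λ ∧ (z j)⁻¹ ∈ R.Λ ∧ R.r (z j) ≠ 0 :=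
    Ev.all fun j => ev_ne (hz j)
  refine ((ev_adjoin G hv').and hzz).mono fun R hR => ⟨hR.1.2.1, ?_, ?_⟩
  · refine Subring.closure_mono ?_ hR.1.2.2.1
    rintro _ ⟨a, ha, rfl⟩
    rw [hG] at ha
    obtain ⟨j, l, hl, rfl⟩ := ha
    refine ⟨j, l, hl, ?_⟩
    rw [div_eq_mul_inv, R.r2_mul (hR.2 j).1 (hR.2 (σ l)).2.1]
  · refine Subring.closure_mono ?_ hR.1.2.2.2
    rintro _ ⟨a, ha, rfl⟩
    rw [hG] at ha
    obtain ⟨j, l, hl, rfl⟩ := ha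
    refine ⟨j, l, hl, ?_⟩
    rw [div_eq_mul_inv, R.r_mul (hR.2 j).1 (hR.2 (σ l)).2.1,
      R.r_inv (hz _) (hR.2 (σ l)).1 (hR.2 (σ l)).2.1, div_eq_mul_inv]

/-- units of the ring of the charts in `J` -/
theorem ev_unit {z : Fin N → L} (hz : ∀ j, z j ≠ 0) (σ : Λ → Fin N) (J : Finset Λ) {v : L}
    (hv : Un (AR ℂ z σ J) v) :
    Ev t y fun R => v ∈ R.Λ ∧ v⁻¹ ∈ R.Λ ∧
      R.r2 v ∈ A2 (fun j => R.r2 (z j)) (fun j => R.r2 (z j)⁻¹) σ J ∧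
      R.r2 v⁻¹ ∈ A2 (fun j => R.r2 (z j)) (fun j => R.r2 (z j)⁻¹) σ J ∧ R.r2 v * R.r2 v⁻¹ = 1 ∧
      _root_.KM.UnitOf (AJ (fun j => R.r (z j)) σ J) (R.r v) := by
  refine ((ev_AR hz σ J hv.2.1).and (ev_AR hz σ J hv.2.2)).mono fun R hR => ?_
  obtain ⟨⟨h1, h2, h3⟩, h4, h5, h6⟩ := hR
  refine ⟨h1, h4, h2, h5, R.r2_inv hv.1 h1 h4, R.r_ne hv.1 h1 h4, h3, ?_⟩
  rw [← R.r_inv hv.1 h1 h4]
  exact h6

/-- elements of `ℂ[G]`, both rings -/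
theorem ev_closure (G : Finset L) {v : L} (hv : v ∈ Algebra.adjoin ℂ (G : Set L)) :
    Ev t y fun R => R.r2 v ∈ Subring.closure (R.r2 '' (G : Set L)) :=
  (ev_adjoin G hv).mono fun _ hR => hR.2.2.1

theorem chA_eq_AR (z : Fin N → L) (σ : Λ → Fin N) (a : Λ) : chA z (σ a) = AR ℂ z σ {a} := by
  unfold chA AR
  congr 1
  ext v
  constructor
  · rintro ⟨i, rfl⟩
    exact ⟨i, a, Finset.mem_singleton_self a, rfl⟩
  · rintro ⟨i, l, hl, rfl⟩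
    rw [Finset.mem_singleton] at hl
    subst hl
    exact ⟨i, rfl⟩

theorem sup_eq_AR [DecidableEq Λ] (z : Fin N → L) (σ : Λ → Fin N) (a b : Λ) :
    chA z (σ a) ⊔ chA z (σ b) = AR ℂ z σ {a, b} := by
  unfold chA AR
  rw [← Algebra.adjoin_union]
  congr 1
  ext v
  constructor
  · rintro (⟨i, rfl⟩ | ⟨i, rfl⟩)
    · exact ⟨i, a, by simp, rfl⟩
    · exact ⟨i, b, by simp, rfl⟩
  · rintro ⟨i, l, hl, rfl⟩
    rw [Finset.mem_insert, Finset.mem_singleton] at hl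
    rcases hl with rfl | rfl
    · exact Or.inl ⟨i, rfl⟩
    · exact Or.inr ⟨i, rfl⟩

end Pool.Agent.Lib.MP_732f67_ag.T
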