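import Pool.Agent.Lib.MP_732f67_ag.G.RedMod
import Pool.Agent.Lib.MP_732f67_ag.G.RedEv
import Pool.Agent.Lib.MP_732f67_ag.G.RedEx
import Pool.Agent.Lib.MP_732f67_ag.G.RedDeg

/-!
# Project KM, transfer: linear independence over `ℂ` and over the prime field
-/

set_option autoImplicit false

namespace Pool.Agent.Lib.MP_732f67_ag.T

open Pool.Agent.KM Polynomial

variable {L : Type} [Field L] [Algebra ℂ L] {n : ℕ} {t : Fin n → L} {y : L}

/-- the polynomial of the primitive element is irreducible -/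
theorem prim_irr (ht : AlgebraicIndependent ℂ t) {f : (MvPolynomial (Fin n) ℂ)[X]} (hm : f.Monic)
    (hd : 0 < f.natDegree)
    (h0 : f.eval₂ (MvPolynomial.aeval t : MvPolynomial (Fin n) ℂ →ₐ[ℂ] L).toRingHom y = 0)
    (hk : ∀ g : (MvPolynomial (Fin n) ℂ)[X],
      g.eval₂ (MvPolynomial.aeval t : MvPolynomial (Fin n) ℂ →ₐ[ℂ] L).toRingHom y = 0 → f ∣ g) :
    Irreducible f := by
  have _ := ht
  have hf0 : f ≠ 0 := hm.ne_zero
  refine (irreducible_iff.2 ⟨?_, ?_⟩)
  · intro hu
    have h1 := Polynomial.natDegree_eq_zero_of_isUnit hu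
    omega
  · intro a b hab
    have h1 : a.eval₂ (MvPolynomial.aeval t : MvPolynomial (Fin n) ℂ →ₐ[ℂ] L).toRingHom y *
        b.eval₂ (MvPolynomial.aeval t : MvPolynomial (Fin n) ℂ →ₐ[ℂ] L).toRingHom y = 0 := by
      rw [← Polynomial.eval₂_mul, ← hab, h0]
    have key : ∀ a b : (MvPolynomial (Fin n) ℂ)[X], f = a * b → f ∣ a → IsUnit b := by
      intro a b hab ⟨c, hc⟩
      have h2 : f * (c * b) = f * 1 := by
        rw [mul_one, ← mul_assoc, ← hc, ← hab]
      exact IsUnit.of_mul_eq_one_right _ (mul_left_cancel₀ hf0 h2)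
    rcases mul_eq_zero.1 h1 with h2 | h2
    · exact Or.inr (key a b hab (hk a h2))
    · exact Or.inl (key b a (by rw [hab, mul_comm]) (hk b h2))

/-- **linear independence is preserved** -/
theorem ev_lin (h : Prim t y) {s : ℕ} {U : Fin s → L} (hU : LinearIndependent ℂ U) :
    Ev t y fun R => (∀ i, U i ∈ R.Λ) ∧ LinearIndependent (ZMod R.p) fun i => R.r (U i) := by
  classical
  obtain ⟨f, hfm, hfd, hf0, hfk, -⟩ := h.int
  have hirr := prim_irr h.basis.1 hfm hfd hf0 hfk
  obtain ⟨q, hq, hqs⟩ := redLift_common h.gen (Finset.univ.image U)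
  choose g₀ hg₀ using fun i => hqs (U i) (Finset.mem_image_of_mem _ (Finset.mem_univ i))
  -- the remainders
  set g : Fin s → (MvPolynomial (Fin n) ℂ)[X] := fun i => g₀ i %ₘ f with hg
  have hgev : ∀ i, (g i).eval₂ (MvPolynomial.aeval t : MvPolynomial (Fin n) ℂ →ₐ[ℂ] L).toRingHom y =
      MvPolynomial.aeval t q * U i := by
    intro i
    have h1 := Polynomial.modByMonic_add_div (g₀ i) f
    have h2 := congrArg (Polynomial.eval₂
      (MvPolynomial.aeval t : MvPolynomial (Fin n) ℂ →ₐ[ℂ] L).toRingHom y) h1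
    rw [Polynomial.eval₂_add, Polynomial.eval₂_mul, hf0, zero_mul, add_zero] at h2
    rw [hg₀ i]
    exact h2
  have hgd : ∀ i, (g i).natDegree < f.natDegree := fun i =>
    Polynomial.natDegree_modByMonic_lt _ hfm (by
      intro h1
      rw [h1, Polynomial.natDegree_one] at hfd
      exact lt_irrefl _ hfd)
  -- the set of the monomials
  set K : Finset (ℕ × (Fin n →₀ ℕ)) := Finset.univ.biUnion fun i =>
    (g i).support.biUnion fun j => ((g i).coeff j).support.image fun α => (j, α) with hK
  have hKmem : ∀ i j α, ((g i).coeff j).coeff α ≠ 0 → (j, α) ∈ K := by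
    intro i j α h1
    rw [hK, Finset.mem_biUnion]
    refine ⟨i, Finset.mem_univ i, ?_⟩
    rw [Finset.mem_biUnion]
    refine ⟨j, ?_, Finset.mem_image.2 ⟨α, MvPolynomial.mem_support_iff.2 h1, rfl⟩⟩
    rw [Polynomial.mem_support_iff]
    intro h2
    rw [h2, MvPolynomial.coeff_zero] at h1
    exact h1 rfl
  let c : Fin s → (K → ℂ) := fun i m => ((g i).coeff m.1.1).coeff m.1.2
  have hq0 : (MvPolynomial.aeval t q : L) ≠ 0 := by
    intro h1
    exact hq (h.basis.1 (h1.trans (map_zero _).symm))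
  have hc : LinearIndependent ℂ c := by
    rw [Fintype.linearIndependent_iff]
    intro a ha
    have h1 : ∑ i, Polynomial.C (MvPolynomial.C (a i)) * g i = 0 := by
      ext j α
      rw [Polynomial.finsetSum_coeff, MvPolynomial.coeff_sum, Polynomial.coeff_zero,
        MvPolynomial.coeff_zero]
      simp only [Polynomial.coeff_C_mul, MvPolynomial.coeff_C_mul]
      by_cases hm : (j, α) ∈ K
      · have h2 := congrFun ha ⟨(j, α), hm⟩
        rw [Finset.sum_apply] at h2
        exact h2
      · refine Finset.sum_eq_zero fun i _ => ?_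
        have h3 : ((g i).coeff j).coeff α = 0 := by
          by_contra h4
          exact hm (hKmem i j α h4)
        rw [h3, mul_zero]
    have h2 := congrArg (Polynomial.eval₂
      (MvPolynomial.aeval t : MvPolynomial (Fin n) ℂ →ₐ[ℂ] L).toRingHom y) h1
    rw [Polynomial.eval₂_finsetSum, Polynomial.eval₂_zero] at h2
    have h3 : ∑ i, a i • U i = 0 := by
      have h4 : MvPolynomial.aeval t q * ∑ i, a i • U i = 0 := by
        rw [← h2, Finset.mul_sum]
        refine Finset.sum_congr rfl fun i _ => ?_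
        rw [Polynomial.eval₂_mul, Polynomial.eval₂_C, hgev i]
        show _ = MvPolynomial.aeval t (MvPolynomial.C (a i)) * _
        rw [MvPolynomial.aeval_C, Algebra.smul_def]
        ring
      exact (mul_eq_zero.1 h4).resolve_left hq0
    exact Fintype.linearIndependent_iff.1 hU a h3
  -- the left inverse
  obtain ⟨φ, hφ⟩ := LinearMap.exists_leftInverse_of_injective
    (Fintype.linearCombination ℂ c) (LinearMap.ker_eq_bot.2 hc.fintypeLinearCombination_injective)
  let Cm : Fin s → K → ℂ := fun a m => φ (Pi.single m 1) a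
  have hCm : ∀ i a, ∑ m, c i m * Cm a m = if i = a then 1 else 0 := by
    intro i a
    have h1 := LinearMap.congr_fun hφ (Pi.single i 1)
    rw [LinearMap.comp_apply, LinearMap.id_apply, Fintype.linearCombination_apply_single,
      one_smul] at h1
    have h2 : c i = ∑ m, c i m • (Pi.single m (1 : ℂ) : K → ℂ) := by
      funext m
      rw [Finset.sum_apply]
      simp only [Pi.smul_apply, smul_eq_mul, Pi.single_apply, mul_ite, mul_one, mul_zero]
      rw [Finset.sum_ite_eq]
      simp
    have h3 := congrFun h1 a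
    rw [h2, map_sum, Finset.sum_apply] at h3
    simp only [map_smul, Pi.smul_apply, smul_eq_mul] at h3
    rw [h3, Pi.single_apply]
    simp only [eq_comm]
  -- the constants
  choose Sg hSg using fun i => redLift_exists (g i)
  let S : Finset ℂ := (Finset.univ.biUnion Sg) ∪
    Finset.univ.biUnion fun a => Finset.univ.image fun m => Cm a m
  refine (((ev_B S).and (ev_deg h.basis h.basis f hfm hirr hf0)).and
    ((ev_ne hq0).and (Ev.all fun i => ev_mem (U i)))).mono fun R hR => ?_
  obtain ⟨⟨hB, hdeg⟩, ⟨hqm, -, hqn⟩, hUm⟩ := hR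
  refine ⟨hUm, ?_⟩
  set B := Subring.closure (S : Set ℂ) with hBdef
  have hSB : ∀ z ∈ S, z ∈ B := fun z hz => Subring.subset_closure hz
  have hlift : ∀ i, ∃ G : (MvPolynomial (Fin n) B)[X],
      G.map (MvPolynomial.map B.subtype) = g i := fun i => hSg i B fun z hz =>
    hSB z (Finset.mem_union_left _ (Finset.mem_biUnion.2 ⟨i, Finset.mem_univ i, hz⟩))
  choose G hG using hlift
  have hCB : ∀ a m, Cm a m ∈ B := fun a m => hSB _ (Finset.mem_union_right _
    (Finset.mem_biUnion.2 ⟨a, Finset.mem_univ a, Finset.mem_image.2 ⟨m, Finset.mem_univ m, rfl⟩⟩))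
  have hyΛ : y ∈ R.Λ := R.y_mem
  have hev : ∀ i, R.r (MvPolynomial.aeval t q) * R.r (U i) =
      ((G i).map (MvPolynomial.map (R.ψB B hB))).eval₂
        (MvPolynomial.aeval (fun i => R.r (t i)) :
          MvPolynomial (Fin n) (ZMod R.p) →ₐ[ZMod R.p] R.F).toRingHom (R.r y) := by
    intro i
    rw [← (R.r_eval₂ R.t_mem hyΛ B hB (G i)).2, hG i, hgev i, R.r_mul hqm (hUm i)]
  rw [Fintype.linearIndependent_iff]
  intro a ha
  have h1 : ∑ i, Polynomial.C (MvPolynomial.C (a i)) *
      (G i).map (MvPolynomial.map (R.ψB B hB)) = 0 := by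
    refine hdeg _ ?_ ?_
    · refine lt_of_le_of_lt (Polynomial.natDegree_sum_le _ _) ?_
      refine (Finset.fold_max_lt _).2 ⟨hfd, fun i _ => ?_⟩
      show (Polynomial.C (MvPolynomial.C (a i)) *
        (G i).map (MvPolynomial.map (R.ψB B hB))).natDegree < _
      refine lt_of_le_of_lt (Polynomial.natDegree_C_mul_le _ _) ?_
      refine lt_of_le_of_lt Polynomial.natDegree_map_le ?_
      have h2 := hgd i
      rw [← hG i] at h2
      rwa [Polynomial.natDegree_map_eq_of_injective
        (MvPolynomial.map_injective _ B.subtype_injective)] at h2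
    · rw [Polynomial.eval₂_finsetSum]
      have h2 : R.r (MvPolynomial.aeval t q) * ∑ i, a i • R.r (U i) = 0 := by
        rw [ha, mul_zero]
      rw [← h2, Finset.mul_sum]
      refine Finset.sum_congr rfl fun i _ => ?_
      rw [Polynomial.eval₂_mul, Polynomial.eval₂_C, ← hev i]
      show MvPolynomial.aeval _ (MvPolynomial.C (a i)) * _ = _
      rw [MvPolynomial.aeval_C, Algebra.smul_def]
      ring
  have h2 : ∀ m : K, ∑ i, a i * R.ψB B hB (((G i).coeff m.1.1).coeff m.1.2) = 0 := by
    intro m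
    have h3 := congrArg (fun P : (MvPolynomial (Fin n) (ZMod R.p))[X] =>
      (P.coeff m.1.1).coeff m.1.2) h1
    simp only [Polynomial.finsetSum_coeff, MvPolynomial.coeff_sum, Polynomial.coeff_C_mul,
      MvPolynomial.coeff_C_mul, Polynomial.coeff_map, MvPolynomial.coeff_map,
      Polynomial.coeff_zero, MvPolynomial.coeff_zero] at h3
    exact h3
  intro a₀
  have h3 : ∑ m : K, (∑ i, a i * R.ψB B hB (((G i).coeff m.1.1).coeff m.1.2)) *
      R.ψB B hB ⟨Cm a₀ m, hCB a₀ m⟩ = 0 := Finset.sum_eq_zero fun m _ => by rw [h2 m, zero_mul]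
  have h4 : ∀ i, ∑ m : K, R.ψB B hB (((G i).coeff m.1.1).coeff m.1.2) *
      R.ψB B hB ⟨Cm a₀ m, hCB a₀ m⟩ = if i = a₀ then 1 else 0 := by
    intro i
    have h5 : ∑ m : K, ((G i).coeff m.1.1).coeff m.1.2 * ⟨Cm a₀ m, hCB a₀ m⟩ =
        if i = a₀ then (1 : B) else 0 := by
      apply Subtype.ext
      rw [AddSubmonoidClass.coe_finsetSum]
      have h6 := hCm i a₀
      have h7 : (((if i = a₀ then (1 : B) else 0) : B) : ℂ) = if i = a₀ then 1 else 0 := by
        split_ifs <;> rfl
      rw [h7, ← h6]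
      refine Finset.sum_congr rfl fun m _ => ?_
      show ((((G i).coeff m.1.1).coeff m.1.2 : B) : ℂ) * Cm a₀ m = c i m * Cm a₀ m
      congr 1
      show _ = ((g i).coeff m.1.1).coeff m.1.2
      rw [← hG i, Polynomial.coeff_map, MvPolynomial.coeff_map]
      rfl
    have h6 := congrArg (R.ψB B hB) h5
    rw [map_sum] at h6
    simp only [map_mul] at h6
    rw [h6]
    split_ifs
    · exact map_one _
    · exact map_zero _
  rw [← h3]
  simp only [Finset.sum_mul, mul_assoc]
  rw [Finset.sum_comm]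
  simp only [← Finset.mul_sum, h4, mul_ite, mul_one, mul_zero]
  rw [Finset.sum_ite_eq']
  simp

end Pool.Agent.Lib.MP_732f67_ag.T
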