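import Pool.Agent.Lib.MP_732f67_ag.G.RedEv
import Pool.Agent.Lib.MP_732f67_ag.KM.Asm

/-!
# Project KM, transfer: the field of constants of the reductions
-/

set_option autoImplicit false

namespace Pool.Agent.Lib.MP_732f67_ag.T

open Pool.Agent.KM

variable {L : Type} [Field L] [Algebra ℂ L] {n : ℕ} {t : Fin n → L} {y : L}

/-- the algebraic closure of `𝔽_p` in `F` -/
def KR (R : Red L t y) : Subfield R.F := (algebraicClosure (ZMod R.p) R.F).toSubfield

theorem mem_KR (R : Red L t y) {x : R.F} : x ∈ KR R ↔ IsAlgebraic (ZMod R.p) x := by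
  show x ∈ algebraicClosure (ZMod R.p) R.F ↔ _
  exact mem_algebraicClosure_iff

/-- the algebra structure of the field of constants -/
@[instance_reducible] def algKR (R : Red L t y) : Algebra (ZMod R.p) (KR R) :=
  inferInstanceAs (Algebra (ZMod R.p) (algebraicClosure (ZMod R.p) R.F))

theorem towerKR (R : Red L t y) : @IsScalarTower (ZMod R.p) (KR R) R.F
    (algKR R).toSMul _ _ :=
  inferInstanceAs (IsScalarTower (ZMod R.p) (algebraicClosure (ZMod R.p) R.F) R.F)

theorem isAlgKR (R : Red L t y) : @Algebra.IsAlgebraic (ZMod R.p) (KR R) _ _ (algKR R) :=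
  inferInstanceAs (Algebra.IsAlgebraic (ZMod R.p) (algebraicClosure (ZMod R.p) R.F))

theorem KR_perfect (R : Red L t y) : PerfectField (KR R) := by
  let _ := algKR R
  have := isAlgKR R
  exact Algebra.IsAlgebraic.perfectField (K := ZMod R.p) (L := KR R)

theorem KR_FG (R : Red L t y) : _root_.KM.FG (KR R) := by
  classical
  refine ⟨insert (R.r y) (Finset.univ.image fun i => R.r (t i)), ?_⟩
  rw [eq_top_iff]
  intro x _
  have h1 : x ∈ (IntermediateField.adjoin (ZMod R.p)
      (insert (R.π (R.ρ2 ⟨y, R.y_mem⟩)) (Set.range fun i => R.π (R.ρ2 ⟨t i, R.t_mem i⟩)))).toSubfield := by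
    rw [R.fg]
    trivial
  rw [IntermediateField.adjoin_toSubfield] at h1
  have hle : Subfield.closure (Set.range (algebraMap (ZMod R.p) R.F) ∪
      insert (R.π (R.ρ2 ⟨y, R.y_mem⟩)) (Set.range fun i => R.π (R.ρ2 ⟨t i, R.t_mem i⟩))) ≤
      Subfield.closure ((KR R : Set R.F) ∪
        ((insert (R.r y) (Finset.univ.image fun i => R.r (t i)) : Finset R.F) : Set R.F)) := by
    rw [Subfield.closure_le]
    rintro z (⟨c, rfl⟩ | rfl | ⟨i, rfl⟩)
    · refine Subfield.subset_closure (Or.inl ?_)
      exact (mem_KR R).2 (isAlgebraic_algebraMap c)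
    · refine Subfield.subset_closure (Or.inr ?_)
      rw [Finset.mem_coe, Finset.mem_insert]
      exact Or.inl (R.r_of R.y_mem).symm
    · refine Subfield.subset_closure (Or.inr ?_)
      rw [Finset.mem_coe, Finset.mem_insert]
      exact Or.inr (Finset.mem_image.2 ⟨i, Finset.mem_univ i, R.r_of (R.t_mem i)⟩)
  exact hle h1

theorem KR_ac (R : Red L t y) {x : R.F} (hx : IsAlgebraic (KR R) x) : x ∈ KR R := by
  let _ := algKR R
  have := isAlgKR R
  have := towerKR R
  rw [mem_KR]
  exact hx.restrictScalars (ZMod R.p)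

theorem KR_rk (R : Red L t y) : _root_.KM.rk (KR R) (Set.univ : Set R.F) = n := by
  let _ := algKR R
  have := isAlgKR R
  have := towerKR R
  have h1 := R.trans
  set v : Fin n → R.F := fun i => R.π (R.ρ2 ⟨t i, R.t_mem i⟩) with hv
  have h2 : AlgebraicIndependent (KR R) v := h1.1.extendScalars (KR R)
  have h3 : IsTranscendenceBasis (KR R) v := by
    apply h2.isTranscendenceBasis_of_trdeg_le_of_finite
    have h4 := h1.cardinalMk_eq_trdeg
    have h5 : Algebra.trdeg (ZMod R.p) (KR R) + Algebra.trdeg (KR R) R.F =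
        Algebra.trdeg (ZMod R.p) R.F := trdeg_add_eq (ZMod R.p) (KR R) (A := R.F)
    rw [h4, ← h5]
    exact le_add_self
  have h6 := (AlgebraicIndependent.matroid_isBase_iff.mpr h3.to_subtype_range).encard_eq_eRank
  unfold _root_.KM.rk
  rw [Matroid.eRk_univ_eq, ← h6, ← Set.image_univ, h2.injective.encard_image, Set.encard_univ]
  simp

end Pool.Agent.Lib.MP_732f67_ag.T
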