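import Pool.Agent.Lib.MP_732f67_ag.T.GeoR
import Pool.Agent.Lib.MP_732f67_ag.T.PB
import Pool.Agent.Lib.MP_732f67_ag.T.AtK
import Pool.Agent.Lib.MP_732f67_ag.KC.GeoU
import Pool.Agent.Lib.MP_732f67_ag.KC.GeoL
import Pool.Agent.Lib.MP_732f67_ag.KC.HHLoc

/-!
# Project KM, transfer: the rings of the charts at the reductions
-/

set_option autoImplicit false

namespace Pool.Agent.Lib.MP_732f67_ag.T

open Pool.Agent.KM
open Pool.Agent.Lib.MP_732f67_ag.KC (AJ)

variable {L : Type} [Field L] [Algebra ℂ L] {n : ℕ} {I : Type} [Fintype I] {X : AtD L n I}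

/-- the rings of the charts are integrally closed -/
theorem ev_closed (hX : X.Ok) : Ev X.t X.y0 fun R => ∀ (a : Fin X.k) (x : R.F),
    IsIntegral (AJ (fun j => R.r (X.z j)) X.σ {a}) x → x ∈ AJ (fun j => R.r (X.z j)) X.σ {a} := by
  refine (ev_geo hX).mono fun R hR a x hx => ?_
  obtain ⟨f, hf⟩ := hR
  have h := hf.et a
  have hpb := h.isPB
  obtain ⟨D, Tr, hr, -⟩ := KC.exists_ref hpb
  have hno : IsNoetherianRing (AJ (fun j => R.π (R.r2 (X.z j))) X.σ {a}) := KC.AJ_noeth _ _ _
  refine KC.pba_closed hpb h.pba hr (fun c => ?_) hx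
  obtain ⟨b, hb, c', hc', hc0, rfl⟩ := h.gen c
  have hle : Subring.closure (Set.range (fun l => R.π (R.r2 (X.x a l))) ∪ {R.π (R.r2 (X.y a))}) ≤
      AJ (fun j => R.π (R.r2 (X.z j))) X.σ {a} := by
    rw [h.A_eq]
    refine Subring.closure_mono ?_
    rintro v (hv | hv)
    · exact Or.inl hv
    · exact Or.inr (Or.inl hv)
  exact ⟨c', hle hc', hc0, by rw [div_mul_cancel₀ _ hc0]; exact hle hb⟩

/-- they contain the constants -/
theorem ev_const (hX : X.Ok) : Ev X.t X.y0 fun R => ∀ (a : Fin X.k), ∀ x ∈ KR R,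
    x ∈ AJ (fun j => R.r (X.z j)) X.σ {a} := by
  refine (ev_closed hX).mono fun R hR a x hx => hR a x ?_
  have h1 : IsIntegral (ZMod R.p) x := ((mem_KR R).1 hx).isIntegral
  obtain ⟨q, hq, hq0⟩ := h1
  -- the map from `ZMod p`
  let A := AJ (fun j => R.r (X.z j)) X.σ {a}
  have hmem : ∀ c : ZMod R.p, algebraMap (ZMod R.p) R.F c ∈ A := fun c => by
    obtain ⟨k, rfl⟩ := ZMod.intCast_surjective c
    rw [map_intCast]
    exact intCast_mem _ k
  let φ : ZMod R.p →+* A := (algebraMap (ZMod R.p) R.F).codRestrict A hmem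
  refine ⟨q.map φ, hq.map φ, ?_⟩
  rw [Polynomial.eval₂_map]
  exact hq0

/-- an element of a finite family which divides the others in a valuation ring -/
theorem exists_max {F : Type*} [Field F] (O : ValuationSubring F) {N : ℕ} (hN : 0 < N)
    (z : Fin N → F) (hz : ∀ j, z j ≠ 0) : ∃ j, ∀ i, z i / z j ∈ O := by
  have h : ∀ s : Finset (Fin N), s.Nonempty → ∃ j ∈ s, ∀ i ∈ s, z i / z j ∈ O := by
    intro s hs
    induction hs using Finset.Nonempty.cons_induction with
    | singleton a =>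
      refine ⟨a, Finset.mem_singleton_self a, fun i hi => ?_⟩
      rw [Finset.mem_singleton.1 hi, div_self (hz a)]
      exact O.one_mem
    | cons a s ha hs ih =>
      obtain ⟨j, hj, hjs⟩ := ih
      rcases O.mem_or_inv_mem (z a / z j) with h1 | h1
      · refine ⟨j, Finset.mem_cons_of_mem hj, fun i hi => ?_⟩
        rcases Finset.mem_cons.1 hi with rfl | hi
        · exact h1
        · exact hjs i hi
      · rw [inv_div] at h1
        refine ⟨a, Finset.mem_cons_self a s, fun i hi => ?_⟩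
        rcases Finset.mem_cons.1 hi with rfl | hi
        · rw [div_self (hz _)]
          exact O.one_mem
        · have e : z i / z a = (z i / z j) * (z j / z a) := by
            rw [div_mul_div_cancel₀ (hz j)]
          rw [e]
          exact O.mul_mem _ _ (hjs i hi) h1
  obtain ⟨j, -, hj⟩ := h Finset.univ ⟨⟨0, hN⟩, Finset.mem_univ _⟩
  exact ⟨j, fun i => hj i (Finset.mem_univ i)⟩

/-- values of homogeneous polynomials -/
theorem aeval_div {F : Type*} [Field F] {N M : ℕ} (z : Fin N → F) {c : F} (hc : c ≠ 0)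
    (P : MvPolynomial (Fin N) ℤ) (hP : P.IsHomogeneous M) :
    MvPolynomial.aeval z P = c ^ M * MvPolynomial.aeval (fun i => z i / c) P := by
  have h1 : MvPolynomial.aeval (fun i => c * (z i / c)) P =
      c ^ M * MvPolynomial.aeval (fun i => z i / c) P := by
    rw [MvPolynomial.aeval_def, MvPolynomial.aeval_def, MvPolynomial.eval₂_eq',
      MvPolynomial.eval₂_eq', Finset.mul_sum]
    refine Finset.sum_congr rfl fun d hd => ?_
    have hd1 : ∑ i, d i = M := by
      have := hP (MvPolynomial.mem_support_iff.1 hd)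
      rw [← this, Finsupp.weight_apply, Finsupp.sum_fintype _ _ (by simp)]
      simp
    simp only [mul_pow, Finset.prod_mul_distrib, Finset.prod_pow_eq_pow_sum, hd1]
    ring
  rw [← h1]
  congr 2
  funext i
  rw [mul_div_cancel₀ _ hc]

/-- the charts cover -/
theorem ev_cover (hX : X.Ok) (hN : 0 < X.N) : Ev X.t X.y0 fun R => ∀ O : ValuationSubring R.F,
    ∃ a : Fin X.k, ∀ x ∈ AJ (fun j => R.r (X.z j)) X.σ {a}, x ∈ O := by
  have hz : Ev X.t X.y0 fun R => ∀ j, X.z j ∈ R.Λ ∧ (X.z j)⁻¹ ∈ R.Λ ∧ R.r (X.z j) ≠ 0 :=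
    Ev.all fun j => ev_ne (hX.z_ne j)
  refine ((ev_cov hX).and hz).mono fun R hR O => ?_
  obtain ⟨⟨M, hM⟩, hz⟩ := hR
  have hz' : ∀ j, R.r (X.z j) ≠ 0 := fun j => (hz j).2.2
  obtain ⟨j, hj⟩ := exists_max O hN (fun j => R.r (X.z j)) hz'
  obtain ⟨s, hs, he⟩ := hM j
  have h1 : (1 : R.F) = ∑ a, (R.r (X.z (X.σ a)) / R.r (X.z j)) *
      MvPolynomial.aeval (fun i => R.r (X.z i) / R.r (X.z j)) (s a) := by
    have h2 : R.r (X.z j) ^ (M + 1) = R.r (X.z j) ^ (M + 1) *
        ∑ a, (R.r (X.z (X.σ a)) / R.r (X.z j)) *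
          MvPolynomial.aeval (fun i => R.r (X.z i) / R.r (X.z j)) (s a) := by
      nth_rewrite 1 [he]
      rw [Finset.mul_sum]
      refine Finset.sum_congr rfl fun a _ => ?_
      rw [aeval_div _ (hz' j) (s a) (hs a), pow_succ]
      have := hz' j
      field_simp
    have h3 := pow_ne_zero (M + 1) (hz' j)
    exact mul_left_cancel₀ h3 (by rw [mul_one]; exact h2)
  have hin : ∀ a, MvPolynomial.aeval (fun i => R.r (X.z i) / R.r (X.z j)) (s a) ∈ O := by
    intro a
    rw [MvPolynomial.aeval_def, MvPolynomial.eval₂_eq']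
    refine O.toSubring.sum_mem fun d _ => O.toSubring.mul_mem ?_ (O.toSubring.prod_mem fun i _ =>
      O.toSubring.pow_mem (hj i) _)
    rw [eq_intCast]
    exact intCast_mem _ _
  -- one of the quotients is a unit
  obtain ⟨a, ha⟩ : ∃ a, R.r (X.z j) / R.r (X.z (X.σ a)) ∈ O := by
    by_contra hcon
    push Not at hcon
    have h4 : ∀ a, O.valuation ((R.r (X.z (X.σ a)) / R.r (X.z j)) *
        MvPolynomial.aeval (fun i => R.r (X.z i) / R.r (X.z j)) (s a)) < 1 := by
      intro a
      rw [map_mul]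
      have h5 : O.valuation (R.r (X.z (X.σ a)) / R.r (X.z j)) < 1 := by
        rw [← ValuationSubring.mem_nonunits_iff, ValuationSubring.mem_nonunits_iff_or, inv_div]
        exact Or.inr (hcon a)
      have h6 := (O.valuation_le_one_iff _).2 (hin a)
      exact mul_lt_one_of_lt_of_le h5 h6
    have h7 := Valuation.map_sum_lt O.valuation (g := 1) one_ne_zero fun a (_ : a ∈ Finset.univ) =>
      h4 a
    rw [← h1, map_one] at h7
    exact lt_irrefl _ h7
  refine ⟨a, fun x hx => ?_⟩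
  have hle : AJ (fun j => R.r (X.z j)) X.σ {a} ≤ O.toSubring := by
    unfold KC.AJ
    rw [Subring.closure_le]
    rintro _ ⟨i, l, hl, rfl⟩
    rw [Finset.mem_singleton] at hl
    subst hl
    have e : R.r (X.z i) / R.r (X.z (X.σ l)) =
        (R.r (X.z i) / R.r (X.z j)) * (R.r (X.z j) / R.r (X.z (X.σ l))) := by
      rw [div_mul_div_cancel₀ (hz' j)]
    show R.r (X.z i) / R.r (X.z (X.σ l)) ∈ O
    rw [e]
    exact O.mul_mem _ _ (hj i) ha
  exact hle hx

end Pool.Agent.Lib.MP_732f67_ag.T
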