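import Pool.Agent.Lib.MP_732f67_ag.T.AtCl
import Pool.Agent.Lib.MP_732f67_ag.T.Ind
import Pool.Agent.Lib.MP_732f67_ag.T.PolCan

/-!
# Project KM, transfer: generating sections at the reductions
-/

set_option autoImplicit false

namespace Pool.Agent.Lib.MP_732f67_ag.T

open Pool.Agent.KM
open Pool.Agent.Lib.MP_732f67_ag.KC (AJ ep)

variable {L : Type} [Field L] [Algebra ℂ L] {n : ℕ} {I : Type} [Fintype I] {X : AtD L n I}

/-- sections of `m D_i` -/
theorem ev_secs (hX : X.Ok) {m : ℕ} {S : I → Finset L}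
    (h1 : ∀ i, ∀ f ∈ S i, ∀ a, f * X.d a i ^ m ∈ X.A a)
    {g : Fin X.k → I → L} (h2 : ∀ a i, Un (X.A a) (g a i * X.d a i ^ m)) :
    Ev X.t X.y0 fun R => (∀ i, ∀ f ∈ S i, ∀ a, R.r f * R.r (X.d a i) ^ m ∈
        AJ (fun j => R.r (X.z j)) X.σ {a}) ∧
      ∀ a i, _root_.KM.UnitOf (AJ (fun j => R.r (X.z j)) X.σ {a})
        (R.r (g a i) * R.r (X.d a i) ^ m) := by
  have e1 : Ev X.t X.y0 fun R => ∀ i, ∀ f ∈ S i, ∀ a,
      R.r (f * X.d a i ^ m) ∈ AJ (fun j => R.r (X.z j)) X.σ {a} ∧ f ∈ R.Λ :=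
    Ev.all fun i => Ev.all_mem (S i) fun f hf => Ev.all fun a =>
      ((ev_AR hX.z_ne X.σ {a} (by
        rw [← chA_eq_AR]
        exact h1 i f hf a)).and (ev_mem f)).mono fun R hR => ⟨hR.1.2.2, hR.2⟩
  have e2 : Ev X.t X.y0 fun R => ∀ a i,
      _root_.KM.UnitOf (AJ (fun j => R.r (X.z j)) X.σ {a}) (R.r (g a i * X.d a i ^ m)) ∧
        g a i ∈ R.Λ :=
    Ev.all fun a => Ev.all fun i => ((ev_unit hX.z_ne X.σ {a} (by
      rw [← chA_eq_AR]
      exact h2 a i)).and (ev_mem (g a i))).mono fun R hR => ⟨hR.1.2.2.2.2.2, hR.2⟩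
  refine (e1.and (e2.and (ev_base hX))).mono fun R hR => ?_
  obtain ⟨h1, h2, -, -, -, hd, -⟩ := hR
  refine ⟨fun i f hf a => ?_, fun a i => ?_⟩
  · have h3 := (h1 i f hf a).1
    rw [R.r_mul (h1 i f hf a).2 (R.Λ.pow_mem (hd a i).1 m), R.r_pow (hd a i).1] at h3
    exact h3
  · have h3 := (h2 a i).1
    rw [R.r_mul (h2 a i).2 (R.Λ.pow_mem (hd a i).1 m), R.r_pow (hd a i).1] at h3
    exact h3

/-- quotients at the reductions -/
theorem ev_div (f : L) {g : L} (hg : g ≠ 0) {t : Fin n → L} {y : L} :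
    Ev t y fun R => f / g ∈ R.Λ ∧ R.r g ≠ 0 ∧ R.r (f / g) = R.r f / R.r g := by
  refine ((ev_mem f).and (ev_ne hg)).mono fun R hR => ?_
  obtain ⟨hf, hg1, hg2, hg3⟩ := hR
  rw [div_eq_mul_inv, div_eq_mul_inv]
  exact ⟨R.Λ.mul_mem hf hg2, hg3, by rw [R.r_mul hf hg2, R.r_inv hg hg1 hg2]⟩

/-- the divisors are not trivial -/
theorem ev_two (hX : X.Ok) : Ev X.t X.y0 fun R => ∀ i, ∃ f ∈ X.S i, ∃ g ∈ X.S i,
    R.r g ≠ 0 ∧ R.r f / R.r g ∉ KR R := by
  refine Ev.all fun i => ?_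
  obtain ⟨f, hf, g, hg, hg0, htr⟩ := hX.two i
  refine ((ev_div f hg0).and (ev_transc hX.prim.basis htr)).mono fun R hR => ?_
  obtain ⟨⟨-, h0, he⟩, h1⟩ := hR
  refine ⟨f, hf, g, hg, h0, fun h2 => ?_⟩
  rw [← he] at h2
  exact h1 ((mem_KR R).1 h2)

/-- elements algebraic over a subring are algebraic over a larger one -/
theorem algebraic_of_le {F : Type*} [Field F] {k : Type*} [Field k] [Algebra k F]
    (A : Subalgebra k F) (M : Subfield F) (h : ∀ a ∈ A, a ∈ M) {x : F} (hx : IsAlgebraic A x) :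
    IsAlgebraic M x := by
  obtain ⟨P, hP, h0⟩ := hx
  let φ : A →+* M := (A.val.toRingHom).codRestrict M fun a => h _ a.2
  have hφ : Function.Injective φ := fun a b hab => 
    Subtype.ext (congrArg (fun z : M => (z : F)) hab)
  refine ⟨P.map φ, fun h1 => hP (Polynomial.map_injective φ hφ (by rw [h1, Polynomial.map_zero])),
    ?_⟩
  rw [Polynomial.aeval_def, Polynomial.eval₂_map]
  exact h0

/-- the sum of the divisors is big -/
theorem ev_bigK (hX : X.Ok) : Ev X.t X.y0 fun R => ∀ x : R.F,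
    IsAlgebraic (Subfield.closure ((KR R : Set R.F) ∪ {v | ∃ i, ∃ s ∈ (X.S i : Set L),
      ∃ s' ∈ (X.S i : Set L), v = R.r s / R.r s'}) : Subfield R.F) x := by
  have e1 : Ev X.t X.y0 fun R => ∀ i, ∀ f ∈ X.S i, ∀ g ∈ X.S i, g ≠ 0 →
      R.r (f / g) = R.r f / R.r g :=
    Ev.all fun i => Ev.all_mem _ fun f _ => Ev.all_mem _ fun g _ => by
      by_cases hg : g = 0
      · exact Ev.of_forall fun R h => absurd hg h
      · exact (ev_div f hg).mono fun R hR _ => hR.2.2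
  refine (e1.and (ev_big hX.prim.basis hX.big)).mono fun R hR x => ?_
  refine algebraic_of_le _ _ (fun a ha => ?_) (hR.2 x)
  have hle : Algebra.adjoin (ZMod R.p) (R.r '' {w | ∃ i, ∃ f ∈ X.S i, ∃ g ∈ X.S i,
      g ≠ 0 ∧ w = f / g}) ≤ (IntermediateField.adjoin (ZMod R.p) (R.r '' {w | ∃ i, ∃ f ∈ X.S i,
        ∃ g ∈ X.S i, g ≠ 0 ∧ w = f / g})).toSubalgebra := IntermediateField.algebra_adjoin_le_adjoin _ _
  have h1 : a ∈ (IntermediateField.adjoin (ZMod R.p) (R.r '' {w | ∃ i, ∃ f ∈ X.S i,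
        ∃ g ∈ X.S i, g ≠ 0 ∧ w = f / g})).toSubfield := hle ha
  rw [IntermediateField.adjoin_toSubfield] at h1
  have h2 : Subfield.closure (Set.range (algebraMap (ZMod R.p) R.F) ∪
      R.r '' {w | ∃ i, ∃ f ∈ X.S i, ∃ g ∈ X.S i, g ≠ 0 ∧ w = f / g}) ≤
      Subfield.closure ((KR R : Set R.F) ∪ {v | ∃ i, ∃ s ∈ (X.S i : Set L),
        ∃ s' ∈ (X.S i : Set L), v = R.r s / R.r s'}) := by
    rw [Subfield.closure_le]
    rintro z (⟨c, rfl⟩ | ⟨_, ⟨i, f, hf, g, hg, hg0, rfl⟩, rfl⟩)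
    · exact Subfield.subset_closure (Or.inl ((mem_KR R).2 (isAlgebraic_algebraMap c)))
    · exact Subfield.subset_closure (Or.inr ⟨i, f, hf, g, hg, hR.1 i f hf g hg hg0⟩)
  exact h2 h1

/-- non-zero polynomials at the reductions -/
theorem lift_mv_ne {N : ℕ} {P : MvPolynomial (Fin N) ℂ} (hP : P ≠ 0) {t : Fin n → L} {y : L} :
    Ev t y fun R => ∃ P' : MvPolynomial (Fin N) (KR R), P' ≠ 0 ∧
      ∀ v : Fin N → L, (∀ i, v i ∈ R.Λ) → MvPolynomial.aeval v P ∈ R.Λ ∧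
        MvPolynomial.aeval (fun i => R.r (v i)) P' = R.r (MvPolynomial.aeval v P) := by
  obtain ⟨c, hc⟩ : ∃ c : Fin N → ℂ, MvPolynomial.eval c P ≠ 0 := by
    by_contra hcon
    push Not at hcon
    exact hP (MvPolynomial.funext fun c => by rw [hcon c, map_zero])
  have h0 : MvPolynomial.aeval (fun i => algebraMap ℂ L (c i)) P ≠ 0 := by
    have h1 : MvPolynomial.aeval (fun i => algebraMap ℂ L (c i)) P =
        algebraMap ℂ L (MvPolynomial.eval c P) := by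
      rw [← MvPolynomial.coe_aeval_eq_eval]
      exact MvPolynomial.aeval_algebraMap_apply L c P
    rw [h1]
    exact fun h2 => hc ((algebraMap ℂ L).injective (by rw [h2, map_zero]))
  refine ((lift_mv P).and ((ev_ne h0).and (Ev.all fun i =>
    ev_mem (algebraMap ℂ L (c i))))).mono fun R hR => ?_
  obtain ⟨⟨PZ, -, hPZ⟩, ⟨-, -, hne⟩, hc⟩ := hR
  have he : ∀ v : Fin N → R.F, MvPolynomial.aeval v (MvPolynomial.map (algebraMap ℤ (KR R)) PZ) =
      MvPolynomial.aeval v PZ := fun v => MvPolynomial.aeval_map_algebraMap (KR R) v PZ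
  refine ⟨MvPolynomial.map (algebraMap ℤ (KR R)) PZ, fun h1 => hne ?_, fun v hv => ?_⟩
  · rw [(hPZ _ hc).2.2, ← he, h1, map_zero]
  · exact ⟨(hPZ v hv).1, by rw [he, (hPZ v hv).2.2]⟩

/-- the exceptional divisors are contracted to codimension at least two -/
theorem ev_cod (hX : X.Ok) (hC : X.Cod) {g : Fin X.k → I → L}
    (hg : ∀ a i, g a i ∈ X.S i ∧ Un (X.A a) (g a i * X.d a i ^ X.m)) :
    Ev X.t X.y0 fun R => ∀ a j l, X.co a j = some l → ∀ r : Fin (n - 1) → R.F,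
      (∀ k, ∃ i, ∃ s ∈ (X.S i : Set L), r k = R.r s / R.r (g a i)) →
      ∃ P : MvPolynomial (Fin (n - 1)) (KR R), P ≠ 0 ∧
        ∃ c ∈ AJ (fun j => R.r (X.z j)) X.σ {a},
          MvPolynomial.aeval r P = R.r (X.x a l) * c := by
  have hg0 : ∀ a i, g a i ≠ 0 := fun a i => left_ne_zero_of_mul (hg a i).2.1
  have e1 : Ev X.t X.y0 fun R => ∀ a j l, ∀ q : Fin (n - 1) → (Σ i, X.S i), X.co a j = some l →
      ∃ P : MvPolynomial (Fin (n - 1)) (KR R), P ≠ 0 ∧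
        ∃ c ∈ AJ (fun j => R.r (X.z j)) X.σ {a},
          MvPolynomial.aeval (fun k => R.r (((q k).2 : L)) / R.r (g a (q k).1)) P =
            R.r (X.x a l) * c := by
    refine Ev.all fun a => Ev.all fun j => Ev.all fun l => Ev.all fun q => ?_
    by_cases hco : X.co a j = some l
    swap
    · exact Ev.of_forall fun R h => absurd h hco
    obtain ⟨P, hP, w, hw, he⟩ := hC a j l hco
      (fun k => ((q k).2 : L) / g a (q k).1)
      fun k => ⟨(q k).1, (q k).2, (q k).2.2, g a (q k).1, (hg a _).1, (hg a _).2, rfl⟩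
    refine ((lift_mv_ne hP).and ((Ev.all fun k => ev_div ((q k).2 : L) (hg0 a (q k).1)).and
      ((ev_mem (X.x a l)).and (ev_AR hX.z_ne X.σ {a} (by
        rw [← chA_eq_AR]
        exact hw))))).mono fun R hR _ => ?_
    obtain ⟨⟨P', hP', hv⟩, hdiv, hx, hw1, -, hw2⟩ := hR
    refine ⟨P', hP', R.r w, hw2, ?_⟩
    have h1 := (hv _ fun k => (hdiv k).1).2
    rw [he, R.r_mul hx hw1] at h1
    rw [← h1]
    congr 2
    funext k
    exact (hdiv k).2.2.symm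
  refine e1.mono fun R hR a j l hco r hr => ?_
  choose i s hs hrk using hr
  obtain ⟨P, hP, c, hc, he⟩ := hR a j l (fun k => ⟨i k, s k, hs k⟩) hco
  refine ⟨P, hP, c, hc, ?_⟩
  rw [← he]
  congr 2
  funext k
  exact hrk k

end Pool.Agent.Lib.MP_732f67_ag.T
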