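import Pool.Agent.Lib.MP_732f67_ag.T.AtGe
import Pool.Agent.Lib.MP_732f67_ag.KM.AsmG

/-!
# Project KM, transfer: the atlas over the field of constants of the reductions
-/

set_option autoImplicit false

namespace Pool.Agent.Lib.MP_732f67_ag.T

open Pool.Agent.KM
open Pool.Agent.Lib.MP_732f67_ag.KC (AJ ep)
open Pool.Agent.Lib.MP_732f67_ag.V (AR)

variable {L : Type} [Field L] [Algebra ℂ L] {n : ℕ} {I : Type} [Fintype I] [DecidableEq I]
  {X : AtD L n I}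

/-- `Y` is the reduction of the atlas `X` -/
structure IsY (X : AtD L n I) (R : Red L X.t X.y0) (Y : _root_.KM.Atl (KR R) (Fin X.k) I) :
    Prop where
  A : ∀ a, Y.A a = AJ (fun j => R.r (X.z j)) X.σ {a}
  d : ∀ a i, Y.d a i = R.r (X.d a i)

/-- the reduction of the generating sections -/
noncomputable def WR (X : AtD L n I) (R : Red L X.t X.y0) (i : I) : Finset R.F :=
  open Classical in (X.S i).image R.r

/-- the local equations of the exceptional divisors at the reduction -/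
noncomputable def ER (X : AtD L n I) (R : Red L X.t X.y0) (a : Fin X.k) : Finset R.F :=
  open Classical in Finset.univ.image (ep (fun a i => R.r (X.x a i)) X.co a)

omit [Fintype I] [DecidableEq I] in
theorem mem_WR {X : AtD L n I} {R : Red L X.t X.y0} {i : I} {v : R.F} :
    v ∈ WR X R i ↔ ∃ f ∈ X.S i, R.r f = v := by
  classical
  unfold WR
  rw [Finset.mem_image]

omit [Fintype I] [DecidableEq I] in
theorem mem_ER {X : AtD L n I} {R : Red L X.t X.y0} {a : Fin X.k} {v : R.F} :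
    v ∈ ER X R a ↔ ∃ j, ep (fun a i => R.r (X.x a i)) X.co a j = v := by
  classical
  unfold ER
  rw [Finset.mem_image]
  constructor
  · rintro ⟨j, -, h⟩
    exact ⟨j, h⟩
  · rintro ⟨j, h⟩
    exact ⟨j, Finset.mem_univ j, h⟩

/-- **the atlas of the reduction** -/
theorem ev_good0 (hX : X.Ok) (hN : 0 < X.N) {g : Fin X.k → I → L}
    (hg : ∀ a i, g a i ∈ X.S i ∧ Un (X.A a) (g a i * X.d a i ^ X.m)) : Ev X.t X.y0 fun R =>
    ∃ Y : _root_.KM.Atl (KR R) (Fin X.k) I, IsY X R Y ∧ Y.Good X.m ∧ Y.Gen X.m (WR X R) ∧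
      (∀ x : R.F, IsAlgebraic (Subfield.closure ((KR R : Set R.F) ∪
        {v | ∃ j, ∃ s ∈ WR X R j, ∃ s' ∈ WR X R j, v = s / s'}) : Subfield R.F) x) ∧
      (∀ a, ∀ x ∈ ER X R a, x ≠ 0 ∧ x ∈ Y.A a) ∧
      ∀ a j, R.r (g a j) ∈ WR X R j ∧ _root_.KM.UnitOf (Y.A a) (R.r (g a j) * Y.d a j ^ X.m) := by
  classical
  choose g' hgS' hgU' using hX.S'_gen
  have hx0 : ∀ a l, X.x a l ≠ 0 := fun a l => (hX.ch a).tb.1.ne_zero l
  have hxA : ∀ a l, X.x a l ∈ AR ℂ X.z X.σ {a} := by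
    intro a l
    rw [← chA_eq_AR]
    show X.x a l ∈ X.A a
    rw [(hX.ch a).A_eq]
    exact Algebra.subset_adjoin (Or.inl ⟨l, rfl⟩)
  have e1 := ev_secs hX (m := X.m) (S := X.S) hX.S_sec (g := g) fun a i => (hg a i).2
  have e2 := ev_secs hX (m := X.m + 1) (S := X.S') hX.S'_sec (g := fun a i => g' i a)
    fun a i => hgU' i a
  have e9 := Ev.all (t := X.t) (y := X.y0) fun a => Ev.all fun i => ev_ne (hX.d_ne a i)
  have e10 := Ev.all (t := X.t) (y := X.y0) fun a => Ev.all fun l =>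
    (ev_ne (hx0 a l)).and (ev_AR hX.z_ne X.σ {a} (hxA a l))
  refine ((((e1.and e2).and ((ev_two hX).and (ev_bigK hX))).and (ev_closed hX)).and
    (((ev_const hX).and (ev_cover hX hN)).and (e9.and e10))).mono fun R hR => ?_
  obtain ⟨⟨⟨⟨⟨h1, h1'⟩, h2, h2'⟩, h3, h4⟩, h6⟩, ⟨h7, h8⟩, h9, h10⟩ := hR
  obtain ⟨Y, hA, hd⟩ : ∃ Y : _root_.KM.Atl (KR R) (Fin X.k) I,
      (∀ a, Y.A a = AJ (fun j => R.r (X.z j)) X.σ {a}) ∧ ∀ a i, Y.d a i = R.r (X.d a i) :=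
    ⟨⟨fun a => AJ (fun j => R.r (X.z j)) X.σ {a}, h7, fun a i => R.r (X.d a i),
      fun a i => (h9 a i).2.2⟩, fun _ => rfl, fun _ _ => rfl⟩
  have hgen : Y.Gen X.m (WR X R) := by
    constructor
    · intro j s hs i
      obtain ⟨f, hf, rfl⟩ := mem_WR.1 hs
      rw [_root_.KM.Atl.eq_e, hA, hd]
      exact h1 j f hf i
    · intro i j
      refine ⟨R.r (g i j), mem_WR.2 ⟨_, (hg i j).1, rfl⟩, ?_⟩
      rw [hA, hd]
      exact h1' i j
  have hgen' : Y.Gen (X.m + 1) (fun i => (X.S' i).image R.r) := by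
    constructor
    · intro j s hs i
      obtain ⟨f, hf, rfl⟩ := Finset.mem_image.1 hs
      rw [_root_.KM.Atl.eq_e, hA, hd]
      exact h2 j f hf i
    · intro i j
      refine ⟨R.r (g' j i), Finset.mem_image_of_mem _ (hgS' j i), ?_⟩
      rw [hA, hd]
      exact h2' i j
  have hsec : ∀ j, ∀ f ∈ X.S j, R.r f ∈ Y.V (_root_.KM.e j X.m) := fun j f hf =>
    hgen.1 j _ (mem_WR.2 ⟨f, hf, rfl⟩)
  refine ⟨Y, ⟨hA, hd⟩, ⟨hX.m_pos, ?_, ?_, ⟨_, hgen⟩, ⟨_, hgen'⟩, ?_, fun x hx => KR_ac R hx⟩,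
    hgen, ?_, ?_, ?_⟩
  · intro a x hx
    rw [hA] at hx ⊢
    exact h6 a x hx
  · intro O _
    obtain ⟨a, ha⟩ := h8 O
    refine ⟨a, fun x hx => ha x ?_⟩
    rw [← hA]
    exact hx
  · intro j
    obtain ⟨f, hf, f', hf', h0, hn⟩ := h3 j
    exact ⟨X.m, _, hsec j f hf, _, hsec j f' hf', h0, hn⟩
  · intro x
    have hset : {v : R.F | ∃ j, ∃ s ∈ WR X R j, ∃ s' ∈ WR X R j, v = s / s'} =
        {v | ∃ i, ∃ s ∈ (X.S i : Set L), ∃ s' ∈ (X.S i : Set L), v = R.r s / R.r s'} := by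
      ext v
      constructor
      · rintro ⟨j, s, hs, s', hs', rfl⟩
        obtain ⟨f, hf, rfl⟩ := mem_WR.1 hs
        obtain ⟨f', hf', rfl⟩ := mem_WR.1 hs'
        exact ⟨j, f, hf, f', hf', rfl⟩
      · rintro ⟨j, f, hf, f', hf', rfl⟩
        exact ⟨j, _, mem_WR.2 ⟨f, hf, rfl⟩, _, mem_WR.2 ⟨f', hf', rfl⟩, rfl⟩
    rw [hset]
    exact h4 x
  · intro a x hx
    obtain ⟨j, rfl⟩ := mem_ER.1 hx
    unfold ep
    cases X.co a j with
    | none =>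
      rw [hA]
      exact ⟨one_ne_zero, Subring.one_mem _⟩
    | some l =>
      rw [hA]
      exact ⟨(h10 a l).1.2.2, (h10 a l).2.2.2⟩
  · intro a j
    refine ⟨mem_WR.2 ⟨_, (hg a j).1, rfl⟩, ?_⟩
    rw [hA, hd]
    exact h1' a j

/-- **the atlas of the reduction, with the exceptional divisors** -/
theorem ev_good (hX : X.Ok) (hC : X.Cod) (hN : 0 < X.N) : Ev X.t X.y0 fun R =>
    ∃ Y : _root_.KM.Atl (KR R) (Fin X.k) I, IsY X R Y ∧ Y.Good X.m ∧ Y.Gen X.m (WR X R) ∧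
      (∀ x : R.F, IsAlgebraic (Subfield.closure ((KR R : Set R.F) ∪
        {v | ∃ j, ∃ s ∈ WR X R j, ∃ s' ∈ WR X R j, v = s / s'}) : Subfield R.F) x) ∧
      (∀ a, ∀ x ∈ ER X R a, x ≠ 0 ∧ x ∈ Y.A a) ∧
      ∃ g₀ : Fin X.k → I → R.F,
        (∀ a j, g₀ a j ∈ WR X R j ∧ _root_.KM.UnitOf (Y.A a) (g₀ a j * Y.d a j ^ X.m)) ∧
        ∀ a, ∀ x ∈ ER X R a, ∀ r : Fin (n - 1) → R.F,
          (∀ k, ∃ j, ∃ s ∈ WR X R j, r k = s / g₀ a j) →
          ∃ P : MvPolynomial (Fin (n - 1)) (KR R), P ≠ 0 ∧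
            ∃ c ∈ Y.A a, MvPolynomial.aeval r P = x * c := by
  choose g hgS hgU using hX.S_gen
  have hg : ∀ a i, g i a ∈ X.S i ∧ Un (X.A a) (g i a * X.d a i ^ X.m) :=
    fun a i => ⟨hgS i a, hgU i a⟩
  refine ((ev_good0 hX hN (g := fun a i => g i a) hg).and
    (ev_cod hX hC (g := fun a i => g i a) hg)).mono fun R hR => ?_
  obtain ⟨⟨Y, hY, h1, h2, h3, h4, h5⟩, h6⟩ := hR
  refine ⟨Y, hY, h1, h2, h3, h4, fun a j => R.r (g j a), h5, ?_⟩
  intro a x hx r hr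
  obtain ⟨j, rfl⟩ := mem_ER.1 hx
  unfold ep
  cases hco : X.co a j with
  | none =>
    refine ⟨1, one_ne_zero, 1, ?_, ?_⟩
    · rw [hY.A]
      exact Subring.one_mem _
    · rw [map_one]
      exact (one_mul (1 : R.F)).symm
  | some l =>
    obtain ⟨P, hP, c, hc, h⟩ := h6 a j l hco r (by
      intro k
      obtain ⟨i, s, hs, hk⟩ := hr k
      obtain ⟨f, hf, rfl⟩ := mem_WR.1 hs
      exact ⟨i, f, hf, hk⟩)
    refine ⟨P, hP, c, ?_, h⟩
    rw [hY.A]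
    exact hc

end Pool.Agent.Lib.MP_732f67_ag.T
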