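import Pool.Agent.Lib.MP_732f67_ag.T.Adj

/-!
# Project KM, transfer: the charts modulo `p ^ 2`
-/

set_option autoImplicit false

namespace Pool.Agent.Lib.MP_732f67_ag.T

open Pool.Agent.KM
open Pool.Agent.Lib.MP_732f67_ag.KC (ev2 A2 ep jac bet AJ)
open Pool.Agent.Lib.MP_732f67_ag.V (AR)

variable {L : Type} [Field L] [Algebra ℂ L] {n : ℕ} {t : Fin n → L} {y : L} {N : ℕ}

open Polynomial in
/-- the elements of `L` are quotients of elements of `ℂ[x, w]` by elements of `ℂ[x]` -/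
theorem chart_gen {A : Subalgebra ℂ L} {x : Fin n → L} {w u : L} (h : IsCh A x w u) (z : L) :
    ∃ (q : MvPolynomial (Fin n) ℂ) (g : (MvPolynomial (Fin n) ℂ)[X]),
      MvPolynomial.aeval x q ≠ 0 ∧ MvPolynomial.aeval x q * z =
        g.eval₂ (MvPolynomial.aeval x : MvPolynomial (Fin n) ℂ →ₐ[ℂ] L).toRingHom w := by
  let P := MvPolynomial (Fin n) ℂ
  let _ : Algebra P L := (MvPolynomial.aeval x : P →ₐ[ℂ] L).toRingHom.toAlgebra
  have hinj : Function.Injective (algebraMap P L) := h.tb.1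
  have : FaithfulSMul P L := (faithfulSMul_iff_algebraMap_injective _ _).2 hinj
  have ht1 : IsScalarTower ℂ P L := IsScalarTower.of_algebraMap_eq fun c => by
    show algebraMap ℂ L c = (MvPolynomial.aeval x : P →ₐ[ℂ] L) (algebraMap ℂ P c)
    rw [AlgHom.commutes]
  obtain ⟨f, hf1, -, hf2, -, -⟩ := h.pol
  have hw : IsIntegral P w := ⟨f, hf1, hf2⟩
  have hle : Algebra.adjoin ℂ (Set.range x ∪ {w}) ≤
      (Algebra.adjoin P {w}).restrictScalars ℂ := by
    rw [Algebra.adjoin_le_iff]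
    rintro a (⟨i, rfl⟩ | ha)
    · have h1 : x i = algebraMap P L (MvPolynomial.X i) := (MvPolynomial.aeval_X x i).symm
      show x i ∈ Algebra.adjoin P {w}
      rw [h1]
      exact Subalgebra.algebraMap_mem _ _
    · rw [Set.mem_singleton_iff.1 ha]
      exact Algebra.subset_adjoin (Set.mem_singleton w)
  obtain ⟨b, hb, c, hc, hc0, hz⟩ := h.gen z
  have hb' : b ∈ Algebra.adjoin P {w} := hle hb
  have hc' : c ∈ Algebra.adjoin P {w} := hle hc
  have hci : IsIntegral P c :=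
    (adjoin_le_integralClosure hw) hc'
  obtain ⟨q, hq0, hq⟩ := IsAlgebraic.exists_nonzero_coeff_and_aeval_eq_zero hci.isAlgebraic
    (mem_nonZeroDivisors_of_ne_zero hc0)
  refine ⟨q.coeff 0, ?_⟩
  have h2 : algebraMap P L (q.coeff 0) ≠ 0 := by
    rw [Ne, ← map_zero (algebraMap P L)]
    exact fun e => hq0 (hinj e)
  have h3 : aeval c q = c * aeval c (divX q) + algebraMap P L (q.coeff 0) := by
    conv_lhs => rw [← divX_mul_X_add q]
    rw [map_add, map_mul, aeval_X, aeval_C, mul_comm]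
  rw [hq] at h3
  have h4 : algebraMap P L (q.coeff 0) * z ∈ Algebra.adjoin P {w} := by
    have h5 : algebraMap P L (q.coeff 0) * z = -(aeval c (divX q) * b) := by
      have h6 : algebraMap P L (q.coeff 0) = -(c * aeval c (divX q)) := by
        rw [eq_neg_iff_add_eq_zero, add_comm]
        exact h3.symm
      rw [h6, hz]
      field_simp
    rw [h5]
    refine Subalgebra.neg_mem _ (Subalgebra.mul_mem _ ?_ hb')
    exact aeval_subalgebra_coe (divX q) (Algebra.adjoin P {w}) ⟨c, hc'⟩ ▸ SetLike.coe_mem _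
  rw [Algebra.adjoin_singleton_eq_range_aeval] at h4
  obtain ⟨g, hg⟩ := h4
  exact ⟨g, h2, hg.symm⟩

/-- a standard étale chart modulo `p ^ 2` -/
theorem ev_isCh (ht : IsTranscendenceBasis ℂ t) {A : Subalgebra ℂ L} {x : Fin n → L} {w u : L}
    (h : IsCh A x w u) :
    Ev t y fun R => (∀ i, x i ∈ R.Λ) ∧ w ∈ R.Λ ∧ u ∈ R.Λ ∧
      ∃ f : Polynomial (MvPolynomial (Fin n) ℤ), f.Monic ∧ 0 < f.natDegree ∧
        ev2 (fun i => R.r2 (x i)) (R.r2 w) f = 0 ∧
        (∃ v ∈ Subring.closure (Set.range (fun i => R.r2 (x i)) ∪ {R.r2 w}), R.r2 u * v = 1) ∧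
        (∃ v ∈ Subring.closure (Set.range (fun i => R.r2 (x i)) ∪ {R.r2 w, R.r2 u}),
          v * ev2 (fun i => R.r2 (x i)) (R.r2 w) f.derivative = 1) ∧
        (∀ P : Polynomial (MvPolynomial (Fin n) ℤ), P.degree < f.degree →
          R.π (ev2 (fun i => R.r2 (x i)) (R.r2 w) P) = 0 →
          ∃ Q, P = (R.p : Polynomial (MvPolynomial (Fin n) ℤ)) * Q) ∧
        ∀ c : R.F, ∃ P Q : Polynomial (MvPolynomial (Fin n) ℤ),
          R.π (ev2 (fun i => R.r2 (x i)) (R.r2 w) Q) ≠ 0 ∧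
          c * R.π (ev2 (fun i => R.r2 (x i)) (R.r2 w) Q) =
            R.π (ev2 (fun i => R.r2 (x i)) (R.r2 w) P) := by
  classical
  obtain ⟨f, hf1, hfi, hf2, hf3, hf4⟩ := h.pol
  have hdeg : 0 < f.natDegree := by
    rw [Nat.pos_iff_ne_zero]
    intro h0
    have h1 : f = 1 := (Polynomial.Monic.natDegree_eq_zero hf1).1 h0
    rw [h1] at hfi
    exact hfi.not_isUnit isUnit_one
  obtain ⟨G1, hG1⟩ := Set.Finite.exists_finset_coe
    ((Set.finite_range x).union (Set.finite_singleton w))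
  obtain ⟨G2, hG2⟩ := Set.Finite.exists_finset_coe
    ((Set.finite_range x).union ((Set.finite_singleton u).insert w))
  have hu : u⁻¹ ∈ Algebra.adjoin ℂ (G1 : Set L) := by
    rw [hG1]
    exact h.u_inv
  have hfd : (ev x w f.derivative)⁻¹ ∈ Algebra.adjoin ℂ (G2 : Set L) := by
    rw [hG2, ← h.A_eq]
    exact hf4
  have e1 := Ev.all (t := t) (y := y) fun i => ev_mem (x i)
  have e2 : Ev t y fun R => w ∈ R.Λ := ev_mem w
  have e3 : Ev t y fun R => u ∈ R.Λ ∧ u⁻¹ ∈ R.Λ := (ev_mem u).and (ev_mem u⁻¹)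
  have e4 : Ev t y fun R => (ev x w f.derivative)⁻¹ ∈ R.Λ := ev_mem _
  have e5 := lift_poly (t := t) (y := y) f
  have e6 : Ev t y fun R => R.r2 u⁻¹ ∈ Subring.closure (R.r2 '' (G1 : Set L)) := ev_closure G1 hu
  have e7 : Ev t y fun R => R.r2 (ev x w f.derivative)⁻¹ ∈
    Subring.closure (R.r2 '' (G2 : Set L)) := ev_closure G2 hfd
  have e8 := ev_deg (y := y) ht h.tb f hf1 hfi hf2
  have e9 := ev_gen (t := t) (y := y) (x := x) (w := w) fun z => chart_gen h z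
  refine (((((((e1.and e2).and e3).and e4).and e5).and e6).and e7).and (e8.and e9)).mono
    fun R hR => ?_
  obtain ⟨⟨⟨⟨⟨⟨⟨hx, hw⟩, hu1, hu2⟩, hd1⟩, fZ, hfZ, hval⟩, hcu⟩, hcd⟩, hR8, hR9⟩ := hR
  obtain ⟨hm, hnd⟩ := hfZ hf1
  obtain ⟨⟨hv1, hv2⟩, hv3, hv4⟩ := hval x w hx hw
  refine ⟨hx, hw, hu1, fZ, hm, by rw [hnd]; exact hdeg, ?_, ⟨R.r2 u⁻¹, ?_, ?_⟩,
    ⟨R.r2 (ev x w f.derivative)⁻¹, ?_, ?_⟩, ?_, ?_⟩
  · rw [← hv2, hf2, R.r2_zero]
  · rw [hG1, Set.image_union, Set.image_singleton, ← Set.range_comp] at hcu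
    exact hcu
  · exact R.r2_inv h.u_ne hu1 hu2
  · rw [hG2, Set.image_union, Set.image_pair, ← Set.range_comp] at hcd
    exact hcd
  · rw [← hv4, mul_comm]
    exact R.r2_inv hf3 hv3 hd1
  · intro P hP h0
    rw [map_ev2] at h0
    refine ind_of_deg (p := R.p) (x := fun i => R.r (x i)) (w := R.r w) hm ?_ P hP h0
    intro g hg hg0
    rw [hnd] at hg
    exact hR8 g hg hg0
  · intro c
    obtain ⟨P, Q, hQ, hPQ⟩ := gen_quot hR9 c
    refine ⟨P, Q, ?_, ?_⟩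
    · rw [map_ev2]
      exact hQ
    · rw [map_ev2, map_ev2]
      exact hPQ

/-- the ring of a chart modulo `p ^ 2` -/
theorem ev_ring_eq {z : Fin N → L} (hz : ∀ j, z j ≠ 0) {Λ : Type} (σ : Λ → Fin N) (a : Λ)
    {x : Fin n → L} {w u : L} (h : IsCh (chA z (σ a)) x w u) :
    Ev t y fun R => A2 (fun j => R.r2 (z j)) (fun j => R.r2 (z j)⁻¹) σ {a} =
      Subring.closure (Set.range (fun i => R.r2 (x i)) ∪ {R.r2 w, R.r2 u}) := by
  classical
  obtain ⟨G2, hG2⟩ := Set.Finite.exists_finset_coe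
    ((Set.finite_range x).union ((Set.finite_singleton u).insert w))
  have hsub : ∀ v ∈ Set.range x ∪ {w, u}, v ∈ AR ℂ z σ {a} := by
    intro v hv
    rw [← chA_eq_AR, h.A_eq]
    exact Algebra.subset_adjoin hv
  have e1 : Ev t y fun R => ∀ j, z j ∈ R.Λ ∧ (z j)⁻¹ ∈ R.Λ ∧ R.r (z j) ≠ 0 :=
    Ev.all fun j => ev_ne (hz j)
  have e2 : Ev t y fun R => ∀ j, R.r2 (z j / z (σ a)) ∈ Subring.closure (R.r2 '' (G2 : Set L)) := by
    refine Ev.all fun j => ev_closure G2 ?_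
    rw [hG2, ← h.A_eq]
    exact Algebra.subset_adjoin ⟨j, rfl⟩
  have e3 : Ev t y fun R => ∀ v ∈ G2,
      R.r2 v ∈ A2 (fun j => R.r2 (z j)) (fun j => R.r2 (z j)⁻¹) σ {a} := by
    refine Ev.all_mem G2 fun v hv => ?_
    have hv' : v ∈ (G2 : Set L) := Finset.mem_coe.2 hv
    rw [hG2] at hv'
    exact (ev_AR hz σ {a} (hsub v hv')).mono fun R hR => hR.2.1
  refine ((e1.and e2).and e3).mono fun R hR => ?_
  obtain ⟨⟨h1, h2⟩, h3⟩ := hR
  have himg : R.r2 '' (G2 : Set L) = Set.range (fun i => R.r2 (x i)) ∪ {R.r2 w, R.r2 u} := by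
    rw [hG2, Set.image_union, Set.image_pair, ← Set.range_comp]
    rfl
  apply le_antisymm
  · unfold A2
    rw [Subring.closure_le]
    rintro _ ⟨j, l, hl, rfl⟩
    rw [Finset.mem_singleton] at hl
    subst hl
    have h4 := h2 j
    rw [himg, div_eq_mul_inv, R.r2_mul (h1 j).1 (h1 (σ l)).2.1] at h4
    exact h4
  · rw [Subring.closure_le, ← himg]
    rintro _ ⟨v, hv, rfl⟩
    exact h3 v (Finset.mem_coe.1 hv)

end Pool.Agent.Lib.MP_732f67_ag.T
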