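import Pool.Agent.Lib.MP_732f67_ag.T.Adj

/-!
# Project KM, transfer: the derivations
-/

set_option autoImplicit false

namespace Pool.Agent.Lib.MP_732f67_ag.T

open Pool.Agent.KM
open Pool.Agent.Lib.MP_732f67_ag.KC (ev2 A2 ep jac bet AJ)

variable {L : Type} [Field L] [Algebra ℂ L] {n : ℕ} {t : Fin n → L} {y : L}

/-- the derivations of `R.F` which are dual to the reduction of `t` -/
def Dual (R : Red L t y) (D' : Fin n → Derivation ℤ R.F R.F) : Prop :=
  ∀ i j, D' i (R.r (t j)) = if i = j then 1 else 0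

/-- the derivatives of `a` commute with the reductions -/
def DOk (D : Fin n → Derivation ℂ L L) (y : L) (a : L) : Prop :=
  Ev t y fun R => a ∈ R.Λ ∧ (∀ k, D k a ∈ R.Λ) ∧
    ∀ D' : Fin n → Derivation ℤ R.F R.F, Dual R D' → ∀ k, D' k (R.r a) = R.r (D k a)

variable {D : Fin n → Derivation ℂ L L}

theorem dok_const (c : ℂ) : DOk (t := t) D y (algebraMap ℂ L c) := by
  refine (ev_mem (algebraMap ℂ L c)).mono fun R hR => ⟨hR, fun k => ?_, fun D' _ k => ?_⟩
  · rw [Derivation.map_algebraMap]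
    exact R.Λ.zero_mem
  · rw [Derivation.map_algebraMap, R.r_zero]
    obtain ⟨z, hz⟩ := R.const ⟨algebraMap ℂ L c, hR⟩ ⟨c, rfl⟩
    have h1 : R.r (algebraMap ℂ L c) = (z : R.F) := by
      rw [Red.r, R.r2_of hR, hz, map_intCast]
    rw [h1]
    exact Derivation.map_algebraMap (D' k) z

theorem dok_t (hD : ∀ i j, D i (t j) = if i = j then 1 else 0) (j : Fin n) :
    DOk (t := t) D y (t j) := by
  refine Ev.of_forall fun R => ⟨R.t_mem j, fun k => ?_, fun D' hD' k => ?_⟩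
  · rw [hD]
    split_ifs
    · exact R.Λ.one_mem
    · exact R.Λ.zero_mem
  · rw [hD, hD']
    split_ifs
    · exact R.r_one.symm
    · exact R.r_zero.symm

theorem dok_add {a b : L} (ha : DOk (t := t) D y a) (hb : DOk (t := t) D y b) :
    DOk (t := t) D y (a + b) := by
  refine (ha.and hb).mono ?_
  rintro R ⟨⟨h1, h2, h3⟩, h1', h2', h3'⟩
  refine ⟨R.Λ.add_mem h1 h1', fun k => ?_, fun D' hD' k => ?_⟩
  · rw [map_add]
    exact R.Λ.add_mem (h2 k) (h2' k)
  · rw [map_add, R.r_add h1 h1', R.r_add (h2 k) (h2' k), map_add, h3 D' hD', h3' D' hD']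

theorem dok_mul {a b : L} (ha : DOk (t := t) D y a) (hb : DOk (t := t) D y b) :
    DOk (t := t) D y (a * b) := by
  refine (ha.and hb).mono ?_
  rintro R ⟨⟨h1, h2, h3⟩, h1', h2', h3'⟩
  refine ⟨R.Λ.mul_mem h1 h1', fun k => ?_, fun D' hD' k => ?_⟩
  · rw [Derivation.leibniz, smul_eq_mul, smul_eq_mul]
    exact R.Λ.add_mem (R.Λ.mul_mem h1 (h2' k)) (R.Λ.mul_mem h1' (h2 k))
  · rw [Derivation.leibniz, smul_eq_mul, smul_eq_mul, R.r_mul h1 h1',
      R.r_add (R.Λ.mul_mem h1 (h2' k)) (R.Λ.mul_mem h1' (h2 k)), R.r_mul h1 (h2' k),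
      R.r_mul h1' (h2 k), Derivation.leibniz, smul_eq_mul, smul_eq_mul, h3 D' hD', h3' D' hD']

theorem dok_inv {a : L} (ha : DOk (t := t) D y a) : DOk (t := t) D y a⁻¹ := by
  by_cases h0 : a = 0
  · rw [h0, inv_zero, ← h0]
    exact ha
  refine (ha.and (ev_ne h0)).mono ?_
  rintro R ⟨⟨h1, h2, h3⟩, -, hi, hne⟩
  have hp : a⁻¹ ^ 2 ∈ R.Λ := R.Λ.pow_mem hi 2
  refine ⟨hi, fun k => ?_, fun D' hD' k => ?_⟩
  · rw [Derivation.leibniz_inv, smul_eq_mul]
    exact R.Λ.mul_mem (R.Λ.neg_mem hp) (h2 k)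
  · rw [Derivation.leibniz_inv, smul_eq_mul, R.r_inv h0 h1 hi, R.r_mul (R.Λ.neg_mem hp) (h2 k),
      R.r_neg hp, R.r_pow hi, R.r_inv h0 h1 hi, Derivation.leibniz_inv, smul_eq_mul, h3 D' hD']

private theorem der_sum {A K : Type*} [CommRing A] [Field K] [Algebra A K] (Δ : Derivation A K K)
    (s : Finset ℕ) (c : ℕ → K) (x : K) :
    Δ (∑ i ∈ s, c i * x ^ i) =
      ∑ i ∈ s, Δ (c i) * x ^ i + (∑ i ∈ s, c i * (i : K) * x ^ (i - 1)) * Δ x := by
  rw [map_sum, Finset.sum_mul, ← Finset.sum_add_distrib]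
  refine Finset.sum_congr rfl fun i _ => ?_
  rw [Derivation.leibniz, Derivation.leibniz_pow, smul_eq_mul, smul_eq_mul, smul_eq_mul,
    nsmul_eq_mul]
  ring

private theorem der_eval (f : Polynomial L) (a : L) :
    f.derivative.eval a =
      ∑ i ∈ Finset.range (f.natDegree + 1), f.coeff i * (i : L) * a ^ (i - 1) := by
  rw [Polynomial.derivative_eval, Polynomial.sum_over_range]
  intro i
  rw [zero_mul, zero_mul]

/-- roots of polynomials with good coefficients -/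
theorem dok_root (f : Polynomial L) (hf : ∀ i, DOk (t := t) D y (f.coeff i)) {a : L}
    (h0 : f.eval a = 0) (h1 : f.derivative.eval a ≠ 0) : DOk (t := t) D y a := by
  obtain ⟨s, hs⟩ : ∃ s, s = Finset.range (f.natDegree + 1) := ⟨_, rfl⟩
  obtain ⟨e, he⟩ : ∃ e, e = ∑ i ∈ s, f.coeff i * (i : L) * a ^ (i - 1) := ⟨_, rfl⟩
  have he0 : e ≠ 0 := by
    rw [he, hs, ← der_eval]
    exact h1
  have hf0 : ∑ i ∈ s, f.coeff i * a ^ i = 0 := by
    rw [hs, ← Polynomial.eval_eq_sum_range]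
    exact h0
  have hDa : ∀ k, D k a = -(e⁻¹ * ∑ i ∈ s, D k (f.coeff i) * a ^ i) := by
    intro k
    have h2 := der_sum (D k) s f.coeff a
    rw [hf0, map_zero, ← he] at h2
    have h3 : e * D k a = -∑ i ∈ s, D k (f.coeff i) * a ^ i := by
      rw [eq_neg_iff_add_eq_zero, add_comm]
      exact h2.symm
    rw [← mul_neg, ← h3, inv_mul_cancel_left₀ he0]
  refine (((Ev.all_mem s fun i _ => hf i).and (ev_mem a)).and (ev_ne he0)).mono ?_
  rintro R ⟨⟨hc, ha⟩, hem, hei, hern⟩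
  have hsum : ∀ k, ∑ i ∈ s, D k (f.coeff i) * a ^ i ∈ R.Λ := fun k =>
    R.Λ.sum_mem fun i hi => R.Λ.mul_mem ((hc i hi).2.1 k) (R.Λ.pow_mem ha i)
  refine ⟨ha, fun k => ?_, fun D' hD' k => ?_⟩
  · rw [hDa]
    exact R.Λ.neg_mem (R.Λ.mul_mem hei (hsum k))
  · have h4 : ∑ i ∈ s, R.r (f.coeff i) * R.r a ^ i = 0 := by
      rw [← R.r_zero, ← hf0, R.r_sum s _ fun i hi => R.Λ.mul_mem (hc i hi).1 (R.Λ.pow_mem ha i)]
      exact Finset.sum_congr rfl fun i hi => by
        rw [R.r_mul (hc i hi).1 (R.Λ.pow_mem ha i), R.r_pow ha]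
    have h5 : R.r e = ∑ i ∈ s, R.r (f.coeff i) * (i : R.F) * R.r a ^ (i - 1) := by
      rw [he, R.r_sum s _ fun i hi => R.Λ.mul_mem (R.Λ.mul_mem (hc i hi).1 (natCast_mem R.Λ i))
        (R.Λ.pow_mem ha _)]
      refine Finset.sum_congr rfl fun i hi => ?_
      rw [R.r_mul (R.Λ.mul_mem (hc i hi).1 (natCast_mem R.Λ i)) (R.Λ.pow_mem ha _),
        R.r_mul (hc i hi).1 (natCast_mem R.Λ i), R.r_natCast, R.r_pow ha]
    have h6 := der_sum (D' k) s (fun i => R.r (f.coeff i)) (R.r a)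
    rw [h4, map_zero, ← h5] at h6
    have h7 : ∑ i ∈ s, D' k (R.r (f.coeff i)) * R.r a ^ i =
        R.r (∑ i ∈ s, D k (f.coeff i) * a ^ i) := by
      rw [R.r_sum s _ fun i hi => R.Λ.mul_mem ((hc i hi).2.1 k) (R.Λ.pow_mem ha i)]
      refine Finset.sum_congr rfl fun i hi => ?_
      rw [R.r_mul ((hc i hi).2.1 k) (R.Λ.pow_mem ha i), R.r_pow ha, (hc i hi).2.2 D' hD' k]
    rw [h7] at h6
    rw [hDa, R.r_neg (R.Λ.mul_mem hei (hsum k)), R.r_mul hei (hsum k), R.r_inv he0 hem hei,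
      ← mul_neg, eq_inv_mul_iff_mul_eq₀ hern, eq_neg_iff_add_eq_zero, add_comm]
    exact h6.symm

private theorem dok_pow {a : L} (ha : DOk (t := t) D y a) (k : ℕ) : DOk (t := t) D y (a ^ k) := by
  induction k with
  | zero =>
    rw [pow_zero, ← map_one (algebraMap ℂ L)]
    exact dok_const 1
  | succ k ih =>
    rw [pow_succ]
    exact dok_mul ih ha

private theorem dok_sum {ι : Type*} (s : Finset ι) (f : ι → L)
    (hf : ∀ i ∈ s, DOk (t := t) D y (f i)) : DOk (t := t) D y (∑ i ∈ s, f i) := by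
  classical
  induction s using Finset.induction_on with
  | empty =>
    rw [Finset.sum_empty, ← map_zero (algebraMap ℂ L)]
    exact dok_const 0
  | insert a s ha ih =>
    rw [Finset.sum_insert ha]
    exact dok_add (hf a (Finset.mem_insert_self a s)) (ih fun i hi =>
      hf i (Finset.mem_insert_of_mem hi))

private theorem dok_aeval (hD : ∀ i j, D i (t j) = if i = j then 1 else 0)
    (q : MvPolynomial (Fin n) ℂ) : DOk (t := t) D y (MvPolynomial.aeval t q) := by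
  induction q using MvPolynomial.induction_on with
  | C a =>
    rw [MvPolynomial.aeval_C]
    exact dok_const a
  | add p q hp hq =>
    rw [map_add]
    exact dok_add hp hq
  | mul_X p i hp =>
    rw [map_mul, MvPolynomial.aeval_X]
    exact dok_mul hp (dok_t hD i)

/-- **the derivations commute with the reductions** -/
theorem dok_all (h : Prim t y) (hD : ∀ i j, D i (t j) = if i = j then 1 else 0) (a : L) :
    DOk (t := t) D y a := by
  have hinj : ∀ q : MvPolynomial (Fin n) ℂ, q ≠ 0 → MvPolynomial.aeval t q ≠ 0 := by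
    intro q hq hq0
    exact hq (h.basis.1 (by rw [hq0, map_zero]))
  obtain ⟨φ, hφ⟩ : ∃ φ : MvPolynomial (Fin n) ℂ →+* L, φ =
    (MvPolynomial.aeval t : MvPolynomial (Fin n) ℂ →ₐ[ℂ] L).toRingHom := ⟨_, rfl⟩
  have hφa : ∀ q, φ q = MvPolynomial.aeval t q := fun q => by
    rw [hφ]
    rfl
  have hy : DOk (t := t) D y y := by
    obtain ⟨f, -, -, hf0, -, U, V, d, hd, hUV⟩ := h.int
    rw [← hφ] at hf0
    refine dok_root (f.map φ) (fun i => ?_) ?_ ?_
    · rw [Polynomial.coeff_map, hφa]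
      exact dok_aeval hD _
    · rw [Polynomial.eval_map]
      exact hf0
    · intro h1
      rw [Polynomial.derivative_map, Polynomial.eval_map] at h1
      have h2 := congrArg (Polynomial.eval₂ φ y) hUV
      rw [Polynomial.eval₂_add, Polynomial.eval₂_mul, Polynomial.eval₂_mul, hf0, h1, mul_zero,
        mul_zero, add_zero, Polynomial.eval₂_C, hφa] at h2
      exact hinj d hd h2.symm
  obtain ⟨q, g, hq, hg⟩ := h.gen a
  rw [← hφ] at hg
  have h1 : DOk (t := t) D y (g.eval₂ φ y) := by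
    rw [Polynomial.eval₂_eq_sum_range]
    refine dok_sum _ _ fun i _ => dok_mul ?_ (dok_pow hy i)
    rw [hφa]
    exact dok_aeval hD _
  have h2 : a = (MvPolynomial.aeval t q)⁻¹ * g.eval₂ φ y := by
    rw [← hg, inv_mul_cancel_left₀ (hinj q hq)]
  rw [h2]
  exact dok_mul (dok_inv (dok_aeval hD q)) h1

end Pool.Agent.Lib.MP_732f67_ag.T
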