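import Pool.Agent.Lib.MP_732f67_ag.T.Der

/-!
# Project KM, transfer: Jacobian determinants and log forms at the reductions
-/

set_option autoImplicit false

namespace Pool.Agent.Lib.MP_732f67_ag.T

open Pool.Agent.KM
open Pool.Agent.Lib.MP_732f67_ag.KC (ev2 A2 ep jac bet AJ)

variable {L : Type} [Field L] [Algebra ℂ L] {n : ℕ} {I : Type} [Fintype I] {X : AtD L n I}

/-- the derivations over `ℤ` -/
def DZ (D : Fin n → Derivation ℂ L L) (k : Fin n) : Derivation ℤ L L := (D k).restrictScalars ℤ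

omit [Fintype I] in
theorem jac_eq (X : AtD L n I) (a : Fin X.k) : jac (DZ X.D) X.x a = X.jac a := by
  unfold jac AtD.jac
  rw [← Matrix.det_transpose]
  rfl

omit [Fintype I] in
theorem ep_eq (X : AtD L n I) (a : Fin X.k) (j : Fin X.s) : ep X.x X.co a j = X.ε a j := by
  unfold ep AtD.ε eps
  cases X.co a j <;> rfl

/-- determinants of reductions -/
theorem r_det {t : Fin n → L} {y : L} (R : Red L t y) (M : Matrix (Fin n) (Fin n) L)
    (h : ∀ i j, M i j ∈ R.Λ) :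
    M.det ∈ R.Λ ∧ (Matrix.of fun i j => R.r (M i j)).det = R.r M.det := by
  let M' : Matrix (Fin n) (Fin n) R.Λ := Matrix.of fun i j => ⟨M i j, h i j⟩
  have h1 : M'.map R.Λ.subtype = M := by
    ext i j
    rfl
  have h2 : M'.map R.ρ = Matrix.of fun i j => R.r (M i j) := by
    ext i j
    exact (R.r_of (h i j)).symm
  have h3 : (M'.det : L) = M.det := by
    have := RingHom.map_det R.Λ.subtype M'
    rw [RingHom.mapMatrix_apply, h1] at this
    exact this
  have h4 := RingHom.map_det R.ρ M'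
  rw [RingHom.mapMatrix_apply, h2] at h4
  rw [← h3, ← h4]
  exact ⟨M'.det.2, (R.r_coe M'.det).symm⟩

theorem ev_jac (hX : X.Ok) : Ev X.t X.y0 fun R => ∀ D' : Fin n → Derivation ℤ R.F R.F, Dual R D' →
    ∀ a, X.jac a ∈ R.Λ ∧ jac D' (fun a i => R.r (X.x a i)) a = R.r (X.jac a) := by
  have h : Ev X.t X.y0 fun R => ∀ a i, X.x a i ∈ R.Λ ∧ (∀ k, X.D k (X.x a i) ∈ R.Λ) ∧
      ∀ D' : Fin n → Derivation ℤ R.F R.F, Dual R D' → ∀ k,
        D' k (R.r (X.x a i)) = R.r (X.D k (X.x a i)) :=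
    Ev.all fun a => Ev.all fun i => dok_all hX.prim hX.Dt (X.x a i)
  refine h.mono fun R hR D' hD' a => ?_
  have h1 := r_det R (Matrix.of fun i l => X.D i (X.x a l)) fun i l => (hR a l).2.1 i
  refine ⟨h1.1, ?_⟩
  unfold jac
  rw [← Matrix.det_transpose]
  refine Eq.trans ?_ h1.2
  congr 1
  ext i l
  exact (hR a l).2.2 D' hD' i

theorem ev_bet (hX : X.Ok) : Ev X.t X.y0 fun R => ∀ D' : Fin n → Derivation ℤ R.F R.F, Dual R D' →
    ∀ a i k, bet D' (fun a i => R.r (X.x a i)) X.co a i k = R.r (bet (DZ X.D) X.x X.co a i k) := by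
  have h : Ev X.t X.y0 fun R => ∀ a i, X.x a i ∈ R.Λ ∧ (∀ k, X.D k (X.x a i) ∈ R.Λ) ∧
      ∀ D' : Fin n → Derivation ℤ R.F R.F, Dual R D' → ∀ k,
        D' k (R.r (X.x a i)) = R.r (X.D k (X.x a i)) :=
    Ev.all fun a => Ev.all fun i => dok_all hX.prim hX.Dt (X.x a i)
  have hne : ∀ a i, X.x a i ≠ 0 := fun a i => ((hX.ch a).tb.1).ne_zero i
  have h' : Ev X.t X.y0 fun R => ∀ a i, X.x a i ∈ R.Λ ∧ (X.x a i)⁻¹ ∈ R.Λ ∧ R.r (X.x a i) ≠ 0 :=
    Ev.all fun a => Ev.all fun i => ev_ne (hne a i)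
  refine (h.and h').mono fun R hR D' hD' a i k => ?_
  unfold bet
  by_cases hi : ∃ j, X.co a j = some i
  · rw [if_pos hi, if_pos hi]
    show D' k (R.r (X.x a i)) / R.r (X.x a i) = R.r (X.D k (X.x a i) / X.x a i)
    rw [div_eq_mul_inv (X.D k (X.x a i)), R.r_mul ((hR.1 a i).2.1 k) (hR.2 a i).2.1,
      R.r_inv (hne a i) (hR.2 a i).1 (hR.2 a i).2.1, (hR.1 a i).2.2 D' hD' k, div_eq_mul_inv]
  · rw [if_neg hi, if_neg hi]
    exact (hR.1 a i).2.2 D' hD' k

omit [Fintype I] in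
theorem ev_ep (X : AtD L n I) : Ev X.t X.y0 fun R => ∀ a j,
    ep (fun a i => R.r (X.x a i)) X.co a j = R.r (ep X.x X.co a j) := by
  refine Ev.of_forall fun R a j => ?_
  unfold ep
  cases X.co a j with
  | none => exact (R.r_one).symm
  | some l => rfl

end Pool.Agent.Lib.MP_732f67_ag.T
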