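import Pool.Agent.Lib.MP_732f67_ag.G.Atlas
import Pool.Agent.Lib.MP_732f67_ag.G.RedDeg
import Pool.Agent.Lib.MP_732f67_ag.G.RedLift
import Pool.Agent.Lib.MP_732f67_ag.KC.Geo
import Pool.Agent.Lib.MP_732f67_ag.KC.FrobStab
import Pool.Agent.Lib.MP_732f67_ag.V.EvA

/-!
# Project KM, transfer: integral polynomials at a reduction
-/

set_option autoImplicit false

namespace Pool.Agent.Lib.MP_732f67_ag.T

open Pool.Agent.KM
open Pool.Agent.Lib.MP_732f67_ag.KC (ev2 A2 ep jac bet AJ)

variable {L : Type} [Field L] [Algebra ℂ L] {n : ℕ} {t : Fin n → L} {y : L} {N : ℕ}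

/-- the image of `ℤ` -/
def ZR (R : Red L t y) : Subring R.R2 := (Int.castRingHom R.R2).range

/-- the map to the image of `ℤ` -/
def ιZ (R : Red L t y) : ℤ →+* ZR R := (Int.castRingHom R.R2).rangeRestrict

theorem ιZ_surj (R : Red L t y) : Function.Surjective (ιZ R) :=
  (Int.castRingHom R.R2).rangeRestrict_surjective

theorem lft_nontrivial (R : Red L t y) : Nontrivial R.R2 := by
  refine ⟨⟨0, 1, fun h => ?_⟩⟩
  have h1 := congrArg R.π h
  rw [map_zero, map_one] at h1
  exact zero_ne_one h1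

theorem ZR_nontrivial (R : Red L t y) : Nontrivial (ZR R) := by
  have := lft_nontrivial R
  infer_instance

/-- the constants of `B` in `Λ` -/
def jB (R : Red L t y) (B : Subring ℂ) (hB : B ≤ R.C) : B →+* R.Λ :=
  { toFun := fun c => ⟨algebraMap ℂ L c, hB c.2⟩
    map_one' := Subtype.ext (map_one (algebraMap ℂ L))
    map_mul' := fun _ _ => Subtype.ext (map_mul (algebraMap ℂ L) _ _)
    map_zero' := Subtype.ext (map_zero (algebraMap ℂ L))
    map_add' := fun _ _ => Subtype.ext (map_add (algebraMap ℂ L) _ _) }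

/-- the reduction of the constants modulo `p ^ 2` -/
def φB (R : Red L t y) (B : Subring ℂ) (hB : B ≤ R.C) : B →+* ZR R :=
  (R.ρ2.comp (jB R B hB)).codRestrict (ZR R) fun c => by
    obtain ⟨z, hz⟩ := R.const (jB R B hB c) ⟨c, rfl⟩
    exact ⟨z, hz.symm⟩

theorem φB_coe (R : Red L t y) (B : Subring ℂ) (hB : B ≤ R.C) (c : B) :
    ((φB R B hB c : ZR R) : R.R2) = R.ρ2 (jB R B hB c) := rfl

open Polynomial in
/-- values of compatible polynomials -/
theorem ev_lifted (R : Red L t y) {x : Fin n → L} {w : L} (hx : ∀ i, x i ∈ R.Λ) (hw : w ∈ R.Λ)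
    (B : Subring ℂ) (hB : B ≤ R.C) (g : (MvPolynomial (Fin n) B)[X])
    (gZ : (MvPolynomial (Fin n) ℤ)[X])
    (h : gZ.map (MvPolynomial.map (ιZ R)) = g.map (MvPolynomial.map (φB R B hB))) :
    ev x w (g.map (MvPolynomial.map B.subtype)) ∈ R.Λ ∧
      R.r2 (ev x w (g.map (MvPolynomial.map B.subtype))) =
        ev2 (fun i => R.r2 (x i)) (R.r2 w) gZ := by
  let E : (MvPolynomial (Fin n) B)[X] →+* R.Λ :=
    eval₂RingHom (MvPolynomial.eval₂Hom (jB R B hB) fun i => ⟨x i, hx i⟩) ⟨w, hw⟩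
  have h1 : R.Λ.subtype.comp E =
      (eval₂RingHom (MvPolynomial.aeval x : MvPolynomial (Fin n) ℂ →ₐ[ℂ] L).toRingHom w).comp
        (mapRingHom (MvPolynomial.map B.subtype)) := by
    apply Polynomial.ringHom_ext'
    · apply MvPolynomial.ringHom_ext
      · intro c
        simp [E, jB]
      · intro i
        simp [E]
    · simp [E]
  -- values over the image of `ℤ`
  let E2 : (MvPolynomial (Fin n) (ZR R))[X] →+* R.R2 :=
    eval₂RingHom (MvPolynomial.eval₂Hom (ZR R).subtype fun i => R.r2 (x i)) (R.r2 w)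
  have h2 : R.ρ2.comp E = E2.comp (mapRingHom (MvPolynomial.map (φB R B hB))) := by
    apply Polynomial.ringHom_ext'
    · apply MvPolynomial.ringHom_ext
      · intro c
        simp [E, E2, φB_coe]
      · intro i
        simpa [E, E2] using (R.r2_of (hx i)).symm
    · simpa [E, E2] using (R.r2_of hw).symm
  have h3 : (eval₂RingHom (MvPolynomial.aeval (fun i => R.r2 (x i)) :
      MvPolynomial (Fin n) ℤ →ₐ[ℤ] R.R2).toRingHom (R.r2 w)) =
      E2.comp (mapRingHom (MvPolynomial.map (ιZ R))) := by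
    apply Polynomial.ringHom_ext'
    · apply MvPolynomial.ringHom_ext
      · intro c
        simp
      · intro i
        simp [E2]
    · simp [E2]
  have h4 := RingHom.congr_fun h1 g
  have h5 := RingHom.congr_fun h2 g
  have h6 := RingHom.congr_fun h3 gZ
  simp only [RingHom.comp_apply, coe_mapRingHom, coe_eval₂RingHom] at h4 h5 h6
  have h7 : ev x w (g.map (MvPolynomial.map B.subtype)) = (E g : L) := h4.symm
  have h8 : ev2 (fun i => R.r2 (x i)) (R.r2 w) gZ =
      E2 (gZ.map (MvPolynomial.map (ιZ R))) := h6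
  rw [h7, h8, h, ← h5]
  exact ⟨(E g).2, R.r2_coe (E g)⟩

open Polynomial in
/-- lifts of the coefficients, one variable `Y` over `ℂ[x]` -/
theorem lift_poly (f : Polynomial (MvPolynomial (Fin n) ℂ)) :
    Ev t y fun R => ∃ fZ : Polynomial (MvPolynomial (Fin n) ℤ),
      (f.Monic → fZ.Monic ∧ fZ.natDegree = f.natDegree) ∧
      ∀ (x : Fin n → L) (w : L), (∀ i, x i ∈ R.Λ) → w ∈ R.Λ →
        (ev x w f ∈ R.Λ ∧ R.r2 (ev x w f) = ev2 (fun i => R.r2 (x i)) (R.r2 w) fZ) ∧
        (ev x w f.derivative ∈ R.Λ ∧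
          R.r2 (ev x w f.derivative) = ev2 (fun i => R.r2 (x i)) (R.r2 w) fZ.derivative) := by
  obtain ⟨S, hS⟩ := redLift_exists f
  refine (ev_B S).mono fun R hB0 => ?_
  obtain ⟨B, hBS, hB⟩ : ∃ B : Subring ℂ, (S : Set ℂ) ⊆ B ∧ B ≤ R.C :=
    ⟨_, Subring.subset_closure, hB0⟩
  obtain ⟨G, hG⟩ := hS B hBS
  have hnt := ZR_nontrivial R
  set G' := G.map (MvPolynomial.map (φB R B hB)) with hG'
  have hinj : Function.Injective (MvPolynomial.map (σ := Fin n) B.subtype) :=
    MvPolynomial.map_injective _ Subtype.val_injective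
  have hsurj : Function.Surjective (MvPolynomial.map (σ := Fin n) (ιZ R)) :=
    MvPolynomial.map_surjective _ (ιZ_surj R)
  obtain ⟨fZ, hfZ, hmon⟩ : ∃ fZ : Polynomial (MvPolynomial (Fin n) ℤ),
      fZ.map (MvPolynomial.map (ιZ R)) = G' ∧
      (f.Monic → fZ.Monic ∧ fZ.natDegree = f.natDegree) := by
    by_cases hf : f.Monic
    · have hGm : G.Monic := by
        rw [← hG] at hf
        exact (Function.Injective.monic_map_iff hinj).2 hf
      have hG'm : G'.Monic := hGm.map _
      obtain ⟨q, hq1, hq2, hq3⟩ := Polynomial.lifts_and_natDegree_eq_and_monic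
        (f := MvPolynomial.map (ιZ R)) (p := G') (by
          rw [Polynomial.mem_lifts]
          exact Polynomial.map_surjective _ hsurj G') hG'm
      refine ⟨q, hq1, fun _ => ⟨hq3, ?_⟩⟩
      rw [hq2, hG', hGm.natDegree_map, ← hG, hGm.natDegree_map]
    · obtain ⟨q, hq⟩ := Polynomial.map_surjective _ hsurj G'
      exact ⟨q, hq, fun h => absurd h hf⟩
  refine ⟨fZ, hmon, fun x w hx hw => ⟨?_, ?_⟩⟩
  · have := ev_lifted R hx hw B hB G fZ hfZ
    rwa [hG] at this
  · have := ev_lifted R hx hw B hB G.derivative fZ.derivative (by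
      rw [← Polynomial.derivative_map, hfZ, hG', Polynomial.derivative_map])
    rwa [← Polynomial.derivative_map, hG] at this

/-- lifts of the coefficients of a polynomial in `z` -/
theorem lift_mv (P : MvPolynomial (Fin N) ℂ) :
    Ev t y fun R => ∃ PZ : MvPolynomial (Fin N) ℤ, (∀ d, P.coeff d = 0 → PZ.coeff d = 0) ∧
      ∀ v : Fin N → L, (∀ i, v i ∈ R.Λ) → MvPolynomial.aeval v P ∈ R.Λ ∧
        R.r2 (MvPolynomial.aeval v P) = MvPolynomial.aeval (fun i => R.r2 (v i)) PZ ∧
        R.r (MvPolynomial.aeval v P) = MvPolynomial.aeval (fun i => R.r (v i)) PZ := by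
  classical
  refine (ev_B P.coeffs).mono fun R hB => ?_
  set B := Subring.closure (P.coeffs : Set ℂ) with hBdef
  obtain ⟨P', hP'⟩ := redLift_mv P B fun x hx => Subring.subset_closure hx
  choose zc hzc using ιZ_surj R
  set PZ : MvPolynomial (Fin N) ℤ :=
    ∑ d ∈ P'.support, MvPolynomial.monomial d (zc (φB R B hB (P'.coeff d))) with hPZ
  have hco : ∀ d, PZ.coeff d = if d ∈ P'.support then zc (φB R B hB (P'.coeff d)) else 0 := by
    intro d
    rw [hPZ, MvPolynomial.coeff_sum]
    simp only [MvPolynomial.coeff_monomial]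
    rw [Finset.sum_ite_eq']
  have hmap : MvPolynomial.map (ιZ R) PZ = MvPolynomial.map (φB R B hB) P' := by
    ext d
    rw [MvPolynomial.coeff_map, MvPolynomial.coeff_map, hco]
    split_ifs with hd
    · rw [hzc]
    · rw [MvPolynomial.notMem_support_iff.1 hd, map_zero, map_zero]
  have hr2 : ∀ v : Fin N → L, (∀ i, v i ∈ R.Λ) → MvPolynomial.aeval v P ∈ R.Λ ∧
        R.r2 (MvPolynomial.aeval v P) = MvPolynomial.aeval (fun i => R.r2 (v i)) PZ := by
    intro v hv
    let E : MvPolynomial (Fin N) B →+* R.Λ :=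
      MvPolynomial.eval₂Hom (jB R B hB) fun i => ⟨v i, hv i⟩
    have h1 : R.Λ.subtype.comp E =
        (MvPolynomial.aeval v : MvPolynomial (Fin N) ℂ →ₐ[ℂ] L).toRingHom.comp
          (MvPolynomial.map B.subtype) := by
      apply MvPolynomial.ringHom_ext
      · intro c
        simp [E, jB]
      · intro i
        simp [E]
    let E2 : MvPolynomial (Fin N) (ZR R) →+* R.R2 :=
      MvPolynomial.eval₂Hom (ZR R).subtype fun i => R.r2 (v i)
    have h2 : R.ρ2.comp E = E2.comp (MvPolynomial.map (φB R B hB)) := by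
      apply MvPolynomial.ringHom_ext
      · intro c
        simp [E, E2, φB_coe]
      · intro i
        simpa [E, E2] using (R.r2_of (hv i)).symm
    have h3 : (MvPolynomial.aeval (fun i => R.r2 (v i)) :
        MvPolynomial (Fin N) ℤ →ₐ[ℤ] R.R2).toRingHom =
        E2.comp (MvPolynomial.map (ιZ R)) := by
      apply MvPolynomial.ringHom_ext
      · intro c
        simp
      · intro i
        simp [E2]
    have h4 := RingHom.congr_fun h1 P'
    have h5 := RingHom.congr_fun h2 P'
    have h6 := RingHom.congr_fun h3 PZ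
    simp only [RingHom.comp_apply] at h4 h5 h6
    rw [hP'] at h4
    have h7 : MvPolynomial.aeval v P = (E P' : L) := h4.symm
    have h8 : MvPolynomial.aeval (fun i => R.r2 (v i)) PZ =
      E2 (MvPolynomial.map (ιZ R) PZ) := h6
    rw [h7, h8, hmap, ← h5]
    exact ⟨(E P').2, R.r2_coe (E P')⟩
  refine ⟨PZ, fun d hd => ?_, fun v hv => ⟨(hr2 v hv).1, (hr2 v hv).2, ?_⟩⟩
  · rw [hco, if_neg]
    rw [MvPolynomial.notMem_support_iff]
    have h9 : B.subtype (P'.coeff d) = 0 := by rw [← MvPolynomial.coeff_map, hP', hd]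
    exact Subtype.ext h9
  · show R.π (R.r2 _) = _
    rw [(hr2 v hv).2]
    have h10 : (R.π.comp (MvPolynomial.aeval (fun i => R.r2 (v i)) :
        MvPolynomial (Fin N) ℤ →ₐ[ℤ] R.R2).toRingHom) =
        (MvPolynomial.aeval (fun i => R.r (v i)) : MvPolynomial (Fin N) ℤ →ₐ[ℤ] R.F).toRingHom := by
      apply MvPolynomial.ringHom_ext
      · intro c
        simp
      · intro i
        simp [Red.r]
    exact RingHom.congr_fun h10 PZ

/-- the ring homomorphism `ev2` -/
noncomputable def ev2H {R : Type*} [CommRing R] (x : Fin n → R) (w : R) :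
    Polynomial (MvPolynomial (Fin n) ℤ) →+* R :=
  Polynomial.eval₂RingHom (MvPolynomial.aeval x : MvPolynomial (Fin n) ℤ →ₐ[ℤ] R).toRingHom w

theorem ev2H_apply {R : Type*} [CommRing R] (x : Fin n → R) (w : R)
    (P : Polynomial (MvPolynomial (Fin n) ℤ)) : ev2H x w P = ev2 x w P := rfl

/-- the elements of `F` are quotients of values of integral polynomials -/
theorem gen_quot {p : ℕ} [Fact p.Prime] {F : Type*} [Field F] [Algebra (ZMod p) F] {x : Fin n → F}
    {w : F} (h : IntermediateField.adjoin (ZMod p) (insert w (Set.range x)) = ⊤) (c : F) :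
    ∃ P Q : Polynomial (MvPolynomial (Fin n) ℤ), ev2 x w Q ≠ 0 ∧
      c * ev2 x w Q = ev2 x w P := by
  have hc : c ∈ (IntermediateField.adjoin (ZMod p) (insert w (Set.range x))).toSubfield := by
    rw [h]
    trivial
  rw [IntermediateField.adjoin_toSubfield, Subfield.mem_closure_iff] at hc
  have hle : Subring.closure (Set.range (algebraMap (ZMod p) F) ∪ insert w (Set.range x)) ≤
      (ev2H x w).range := by
    rw [Subring.closure_le]
    rintro a (⟨b, rfl⟩ | rfl | ⟨i, rfl⟩)
    · obtain ⟨k, rfl⟩ := ZMod.intCast_surjective b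
      rw [map_intCast]
      exact intCast_mem _ k
    · exact ⟨Polynomial.X, by simp [ev2H]⟩
    · exact ⟨Polynomial.C (MvPolynomial.X i), by simp [ev2H]⟩
  obtain ⟨a, ha, b, hb, rfl⟩ := hc
  by_cases hb0 : b = 0
  · refine ⟨0, 1, ?_, ?_⟩
    · rw [← ev2H_apply, map_one]
      exact one_ne_zero
    · rw [hb0, div_zero, zero_mul, ← ev2H_apply, map_zero]
  · obtain ⟨P, rfl⟩ := hle ha
    obtain ⟨Q, rfl⟩ := hle hb
    exact ⟨P, Q, hb0, div_mul_cancel₀ _ hb0⟩

/-- polynomials with coefficients in `ZMod p` and integral polynomials -/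
theorem ind_of_deg {p : ℕ} [Fact p.Prime] {F : Type*} [Field F] [Algebra (ZMod p) F]
    {x : Fin n → F} {w : F} {fZ : Polynomial (MvPolynomial (Fin n) ℤ)} (hf : fZ.Monic)
    (h : ∀ g : Polynomial (MvPolynomial (Fin n) (ZMod p)), g.natDegree < fZ.natDegree →
      g.eval₂ (MvPolynomial.aeval x : MvPolynomial (Fin n) (ZMod p) →ₐ[ZMod p] F).toRingHom w = 0 →
      g = 0) (P : Polynomial (MvPolynomial (Fin n) ℤ)) (hP : P.degree < fZ.degree)
    (h0 : ev2 x w P = 0) : ∃ Q, P = (p : Polynomial (MvPolynomial (Fin n) ℤ)) * Q := by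
  by_cases hP0 : P = 0
  · exact ⟨0, by rw [hP0, mul_zero]⟩
  set g := P.map (MvPolynomial.map (Int.castRingHom (ZMod p))) with hg
  have hdeg : g.natDegree < fZ.natDegree :=
    lt_of_le_of_lt Polynomial.natDegree_map_le (Polynomial.natDegree_lt_natDegree hP0 hP)
  have hext : (Polynomial.eval₂RingHom (MvPolynomial.aeval x :
      MvPolynomial (Fin n) (ZMod p) →ₐ[ZMod p] F).toRingHom w).comp
        (Polynomial.mapRingHom (MvPolynomial.map (Int.castRingHom (ZMod p)))) = ev2H x w := by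
    apply Polynomial.ringHom_ext'
    · apply MvPolynomial.ringHom_ext
      · intro c
        simp
      · intro i
        simp [ev2H]
    · simp [ev2H]
  have h1 := RingHom.congr_fun hext P
  rw [ev2H_apply, h0] at h1
  have h2 : g = 0 := h g hdeg h1
  have h3 : Polynomial.C (p : MvPolynomial (Fin n) ℤ) ∣ P := by
    rw [Polynomial.C_dvd_iff_dvd_coeff]
    intro i
    have h4 : (p : MvPolynomial (Fin n) ℤ) = MvPolynomial.C ((p : ℕ) : ℤ) := by simp
    rw [h4, MvPolynomial.C_dvd_iff_zmod]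
    have h5 := congrArg (fun q => q.coeff i) h2
    simpa [hg, Polynomial.coeff_map] using h5
  obtain ⟨Q, hQ⟩ := h3
  exact ⟨Q, by rw [hQ]; simp⟩

/-- the values of `ev2` and ring homomorphisms -/
theorem map_ev2 {R S : Type*} [CommRing R] [CommRing S] (φ : R →+* S) (x : Fin n → R) (w : R)
    (f : Polynomial (MvPolynomial (Fin n) ℤ)) : φ (ev2 x w f) = ev2 (fun i => φ (x i)) (φ w) f :=
  KC.fs_hom φ x w f

end Pool.Agent.Lib.MP_732f67_ag.T
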