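import Pool.Agent.Lib.MP_732f67_ag.T.PartC
import Pool.Agent.Lib.MP_732f67_ag.KC.GeoN

/-!
# Project KM, transfer: part C without Hartogs for the reductions of the atlas
-/

set_option autoImplicit false

namespace Pool.Agent.Lib.MP_732f67_ag.T

open Pool.Agent.KM
open Pool.Agent.Lib.MP_732f67_ag.KC (AJ EP eN bZ Ref tau ceα)

variable {L : Type} [Field L] [Algebra ℂ L] {n : ℕ} {I : Type} [Fintype I] [DecidableEq I]
  {X : AtD L n I}

/-- **Part C at the reductions**, without Hartogs; `D` and `Tr` are the derivations and the Cartier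
operator of the `p`-basis `r t` -/
theorem partC2 (hX : X.Ok) (hN : 0 < X.N) : ∃ l₀ : ℕ, Ev X.t X.y0 fun R =>
    ∀ l, l₀ ≤ l → R.p = X.a * X.q * (l + 1) + 1 → n < R.p →
    ∀ (D : Fin n → Derivation ℤ R.F R.F) (Tr : R.F →+ R.F),
      Ref R.p D (fun k => R.r (X.t k)) Tr →
    ∀ (K : Subfield R.F) (Y : _root_.KM.Atl K (Fin X.k) I),
      (∀ a, Y.A a = AJ (fun j => R.r (X.z j)) X.σ {a}) →
      (∀ a i, Y.d a i = R.r (X.d a i)) →
      _root_.KM.IsInv R.p (tau Tr (R.r (X.ω ^ X.a)) (l + 1)) ∧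
        (∀ T, ∀ y ∈ Y.V ((R.p : ℤ) • T + ((l + 1 : ℕ) : ℤ) • bZ fun i => X.a * X.c i), ∀ a, ∃ k : ℕ,
          tau Tr (R.r (X.ω ^ X.a)) (l + 1) y * Y.eq a T *
            EP (fun a i => R.r (X.x a i)) X.co a ^ k ∈ Y.A a) ∧
        ∀ u, ∀ c ∈ Y.V u, c ≠ 0 → ∀ N₁ : ℕ, ∃ M ≥ N₁,
          ∃ y ∈ Y.V (eN R.p M • (((l + 1 : ℕ) : ℤ) • bZ fun i => X.a * X.c i) - u),
            (tau Tr (R.r (X.ω ^ X.a)) (l + 1))^[M] (c * y) = 1 := by
  have hk := partC_nonempty hX hN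
  obtain ⟨l₁, h1⟩ := ev_van hX
  obtain ⟨l₂, h2⟩ := ev_gener hX hN
  set l₃ : ℕ := Finset.univ.sup fun j => (ceα (X.a * X.q) X.b j).toNat with hl₃
  refine ⟨max (max l₁ l₂) l₃, ?_⟩
  refine ((((h1.and h2).and (ev_geo hX)).and (ev_pb hX.prim)).and
    ((ev_pol hX).and (ev_can hX))).mono fun R hR => ?_
  obtain ⟨⟨⟨⟨hvan, hgen⟩, f, hgeo⟩, hpb⟩, hpol, hcan⟩ := hR
  intro l hl hp hn D Tr hr K Y hA hd
  have hD : Dual R D := hr.Dt
  obtain ⟨un, hP⟩ := hpol D hD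
  obtain ⟨uw, hC⟩ := hcan D hD
  have hYd : (fun a i => R.r (X.d a i)) = Y.d := by
    funext a i
    exact (hd a i).symm
  rw [hYd] at hC
  have hl1 : l₁ ≤ l + 1 :=
    (((le_max_left _ _).trans (le_max_left _ _)).trans hl).trans (Nat.le_succ l)
  have hl2 : l₂ ≤ l := ((le_max_right _ _).trans (le_max_left _ _)).trans hl
  have hl3 : ∀ j, ceα (X.a * X.q) X.b j ≤ l := by
    intro j
    have h3 : (ceα (X.a * X.q) X.b j).toNat ≤ l₃ :=
      Finset.le_sup (f := fun j => (ceα (X.a * X.q) X.b j).toNat) (Finset.mem_univ j)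
    have h4 : l₃ ≤ l := (le_max_right _ _).trans hl
    have h5 := Int.self_le_toNat (ceα (X.a * X.q) X.b j)
    have h6 : ((ceα (X.a * X.q) X.b j).toNat : ℤ) ≤ l := by exact_mod_cast h3.trans h4
    exact h5.trans h6
  exact hgeo.final2 hn hpb hr (tt := fun k => R.r2 (X.t k)) (fun _ => rfl) hp hP (b_gt' hX) hC hA
    (fun j => hX.b_lt j) hl3 (hvan (l + 1) hl1 D hD) (hgen l hl2)

end Pool.Agent.Lib.MP_732f67_ag.T
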